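import Pool.Agent.Q205.FC.Choice

/-!
The model does not satisfy the arithmetic Bolzano-Weierstrass scheme.
-/

namespace Pool.Agent.Q205.FC

open Filter Pool.Agent.Q205.RS

/-! ### renaming of symbols -/

/-- Renaming of constants. -/
def tmap {C C' : Type} (f : C → C') : Term C → Term C'
  | .var i => .var i
  | .const a => .const (f a)
  | .zero => .zero
  | .one => .one
  | .add s t => .add (tmap f s) (tmap f t)
  | .mul s t => .mul (tmap f s) (tmap f t)

/-- Renaming of constants and set symbols. -/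
def fmap {C C' S S' : Type} (f : C → C') (g : S → S') : Formula C S → Formula C' S'
  | .eq s t => .eq (tmap f s) (tmap f t)
  | .lt s t => .lt (tmap f s) (tmap f t)
  | .mem t s => .mem (tmap f t) (g s)
  | .neg φ => .neg (fmap f g φ)
  | .and φ ψ => .and (fmap f g φ) (fmap f g ψ)
  | .ball t φ => .ball (tmap f t) (fmap f g φ)
  | .all φ => .all (fmap f g φ)

theorem val_tmap (N : L2Structure) {C C' : Type} (f : C → C') (c : C' → N.M) (t : Term C)
    (v : ℕ → N.M) : (tmap f t).val N c v = t.val N (fun a => c (f a)) v := by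
  induction t with
  | var i => rfl
  | const a => rfl
  | zero => rfl
  | one => rfl
  | add s t hs ht => simp only [tmap, Term.val, hs, ht]
  | mul s t hs ht => simp only [tmap, Term.val, hs, ht]

theorem holds_fmap (N : L2Structure) {C C' S S' : Type} (f : C → C') (g : S → S') (c : C' → N.M)
    (X : S' → Set N.M) (φ : Formula C S) : ∀ v : ℕ → N.M,
    (fmap f g φ).Holds N c X v ↔ φ.Holds N (fun a => c (f a)) (fun s => X (g s)) v := by
  induction φ with
  | eq s t => intro v; simp only [fmap, Formula.Holds, val_tmap]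
  | lt s t => intro v; simp only [fmap, Formula.Holds, val_tmap]
  | mem t s => intro v; simp only [fmap, Formula.Holds, val_tmap]
  | neg φ ih => intro v; exact not_congr (ih v)
  | and φ ψ ih1 ih2 => intro v; exact and_congr (ih1 v) (ih2 v)
  | ball t φ ih =>
    intro v
    simp only [fmap, Formula.Holds, val_tmap]
    exact forall_congr' fun a => imp_congr Iff.rfl (ih (cons a v))
  | all φ ih =>
    intro v
    exact forall_congr' fun a => ih (cons a v)

/-! ### standard numbers -/

/-- The standard number `k`. -/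
noncomputable def num (k : ℕ) : K := gm fun _ => k

theorem num_zero : num 0 = 0 := rfl
theorem num_succ (k : ℕ) : num (k + 1) = num k + 1 := rfl

theorem num_lt {j k : ℕ} (h : j < k) : num j < num k :=
  gm_lt.2 (Eventually.of_forall fun _ => h)

theorem lt_succ_iff' (x y : K) : x < y + 1 ↔ x < y ∨ x = y := by
  constructor
  · intro h
    rcases lt_trichotomy x y with h1 | h1 | h1
    · exact Or.inl h1
    · exact Or.inr h1
    · exfalso
      rw [← gm_rep x, ← gm_rep y] at h h1
      have h2 : gm (rep x) < gm fun i => rep y i + 1 := h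
      rw [gm_lt] at h1 h2
      obtain ⟨i, h3, h4⟩ := (h1.and h2).exists
      omega
  · rintro (h | rfl)
    · exact h.trans (lt_succ_self' y)
    · exact lt_succ_self' x

theorem not_lt_zero' (x : K) : ¬ x < 0 := by
  intro h
  rw [← gm_rep x] at h
  have h2 : gm (rep x) < gm fun _ => 0 := h
  rw [gm_lt] at h2
  obtain ⟨i, hi⟩ := h2.exists
  omega

theorem lt_num {x : K} {k : ℕ} (h : x < num k) : ∃ j < k, x = num j := by
  induction k with
  | zero => exact absurd h (not_lt_zero' x)
  | succ k ih =>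
    rw [num_succ, lt_succ_iff'] at h
    rcases h with h | h
    · obtain ⟨j, hj, rfl⟩ := ih h
      exact ⟨j, by omega, rfl⟩
    · exact ⟨k, by omega, h⟩

theorem succ_ne_zero' (x : K) : x + 1 ≠ 0 := by
  intro h
  have h1 := lt_succ_self' x
  rw [h] at h1
  exact not_lt_zero' x h1

theorem succ_inj' {x y : K} (h : x + 1 = y + 1) : x = y := by
  have h1 : x < y + 1 := by rw [← h]; exact lt_succ_self' x
  have h2 : y < x + 1 := by rw [h]; exact lt_succ_self' y
  rcases (lt_succ_iff' x y).1 h1 with h3 | h3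
  · rcases (lt_succ_iff' y x).1 h2 with h4 | h4
    · exact absurd (h3.trans h4) (lt_irrefl _)
    · exact h4.symm
  · exact h3

/-- A nonstandard number. -/
noncomputable def om : K := gm fun i => i

theorem num_lt_om (k : ℕ) : num k < om := gm_lt.2 (ev_gt k)

/-! ### the parameter and the levels -/

/-- The parameter. -/
def Ps : Set K := trace fun _ => Pm

theorem Ps_mem : Ps ∈ Nm.Sets := mem_Sets.2 ⟨1, _, fun _ => Pm_mem 0, rfl⟩

theorem uf_jop : UF fun N X v => Jop N (· ∈ X 0) (· ∈ X 1) (v 0) :=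
  UF.jop (p := fun _ X _ x => x ∈ X 0) (q := fun _ X _ x => x ∈ X 1) (UT.var 0)
    (UF.mem (UT.var 0) 0) (UF.mem (UT.var 0) 1)

theorem JJ_succ (k : ℕ) (w : K) : w ∈ JJ (k + 1) ↔ Jop Nm (· ∈ Ps) (· ∈ JJ k) w := by
  have h := los_UF uf_jop (fun s _ => if s = 0 then Pm else Jl k) (fun _ => rep w)
  have h1 : Jop Nm (· ∈ Ps) (· ∈ JJ k) (gm (rep w)) ↔
      ∀ᶠ i in (hyperfilter ℕ : Filter ℕ), Jop St (· ∈ Pm) (· ∈ Jl k) (rep w i) := h
  rw [gm_rep] at h1
  rw [h1]
  exact Iff.rfl

theorem JJ_zero (w : K) : w ∉ JJ 0 := by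
  intro h
  obtain ⟨i, hi⟩ := Filter.Eventually.exists (h : ∀ᶠ i in (hyperfilter ℕ : Filter ℕ),
    rep w i ∈ Jl 0)
  exact hi

/-! ### solutions -/

/-- `X` is a solution with first element `n`. -/
def SolK (X : Set K) (n : K) : Prop := Sol Nm (· ∈ Ps) (· ∈ X) n

theorem row_zero {X : Set K} {n : K} (h : SolK X n) (w : K) : n + 1 + pair Nm 0 w ∉ X := by
  intro h1
  obtain ⟨i, w', h2, -⟩ := (h.2.2 (pair Nm 0 w)).1 h1
  exact succ_ne_zero' i (pair_inj h2).1.symm

theorem row_succ {X : Set K} {n : K} (h : SolK X n) (i w : K) (hi : i + 1 < n) :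
    n + 1 + pair Nm (i + 1) w ∈ X ↔
      Jop Nm (· ∈ Ps) (fun x => n + 1 + pair Nm i x ∈ X) w := by
  constructor
  · intro h1
    obtain ⟨i', w', h2, -, h3⟩ := (h.2.2 (pair Nm (i + 1) w)).1 h1
    obtain ⟨h4, rfl⟩ := pair_inj h2
    have h5 := succ_inj' h4
    subst h5
    exact h3
  · intro h1
    exact (h.2.2 (pair Nm (i + 1) w)).2 ⟨i, w, rfl, hi, h1⟩

theorem row_std {X : Set K} {n : K} (h : SolK X n) (k : ℕ) (hk : num k < n) (w : K) :
    n + 1 + pair Nm (num k) w ∈ X ↔ w ∈ JJ k := by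
  induction k generalizing w with
  | zero => exact iff_of_false (row_zero h w) (JJ_zero w)
  | succ k ih =>
    have h1 : num k < n := (num_lt (Nat.lt_succ_self k)).trans hk
    rw [num_succ] at hk ⊢
    rw [row_succ h _ _ hk, JJ_succ]
    have h2 : (fun x => n + 1 + pair Nm (num k) x ∈ X) = (· ∈ JJ k) := by
      funext x
      exact propext (ih h1 x)
    rw [h2]

/-- The first element of a solution is standard. -/
theorem first_std {X : Set K} (hX : X ∈ Nm.Sets) {n : K} (h : SolK X n) : ∃ k, n = num k := by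
  by_contra hcon
  push Not at hcon
  have hn : ∀ k, num k < n := by
    intro k
    rcases lt_trichotomy (num k) n with h1 | h1 | h1
    · exact h1
    · exact absurd h1.symm (hcon k)
    · obtain ⟨j, -, hj⟩ := lt_num h1
      exact absurd hj (hcon j)
  set D : Set K := {x | ∀ m j, x = pair Nm m j →
    n + 1 + pair Nm m (pair Nm j x) ∉ X} with hD
  have hDm : D ∈ Nm.Sets := by
    have hUF : UF fun N X v => ∀ m j, v 0 = pair N m j →
        N.add (N.add (v 1) N.one) (pair N m (pair N j (v 0))) ∉ X 0 := by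
      refine UF.all (UF.all ?_)
      refine UF.imp (UF.eq (UT.var 2) ((UT.var 1).pair (UT.var 0))) (UF.not ?_)
      exact UF.mem (((UT.var 3).add UT.one).add ((UT.var 1).pair ((UT.var 0).pair (UT.var 2)))) 0
    exact comp_UF hUF (fun _ => X) (fun _ => hX) (fun _ => n)
  obtain ⟨k, j, hk⟩ := mem_Sets'.1 hDm
  have h1 : pair Nm (num k) j ∈ D ↔
      n + 1 + pair Nm (num k) (pair Nm j (pair Nm (num k) j)) ∉ X := by
    constructor
    · intro h2
      exact h2 (num k) j rfl
    · intro h2 m j' h3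
      obtain ⟨rfl, rfl⟩ := pair_inj h3
      exact h2
  rw [row_std h k (hn k)] at h1
  have h2 : pair Nm (num k) j ∈ D ↔ pair Nm j (pair Nm (num k) j) ∈ JJ k := by
    rw [hk]; exact Iff.rfl
  exact iff_not_self (h2.symm.trans h1)

theorem exists_sub {n z : K} (h : n < z) : ∃ y, z = n + 1 + y := by
  have h' : gm (rep n) < gm (rep z) := by rw [gm_rep, gm_rep]; exact h
  rw [gm_lt] at h'
  refine ⟨gm fun i => rep z i - (rep n i + 1), ?_⟩
  have e : gm (rep z) = gm fun i => rep n i + 1 + (rep z i - (rep n i + 1)) := by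
    refine gm_eq.2 ?_
    filter_upwards [h'] with i hi
    omega
  have e2 : (gm fun i => rep n i + 1 + (rep z i - (rep n i + 1))) =
      gm (rep n) + 1 + gm fun i => rep z i - (rep n i + 1) := rfl
  rw [e2, gm_rep, gm_rep] at e
  exact e

theorem sol_unique {X Y : Set K} (hX : X ∈ Nm.Sets) {n : K} (h : SolK X n) (h' : SolK Y n) :
    X = Y := by
  obtain ⟨k, rfl⟩ := first_std hX h
  ext z
  rcases lt_trichotomy z (num k) with h1 | rfl | h1
  · exact iff_of_false (h.2.1 z h1) (h'.2.1 z h1)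
  · exact iff_of_true h.1 h'.1
  · obtain ⟨y, rfl⟩ := exists_sub h1
    refine (h.2.2 y).trans (Iff.trans ?_ (h'.2.2 y).symm)
    refine exists_congr fun i => exists_congr fun w => and_congr Iff.rfl ?_
    refine and_congr_right fun hi => ?_
    have hi' : i < num k := (lt_succ_self' i).trans hi
    obtain ⟨j, hj, rfl⟩ := lt_num hi'
    have e : (fun x => Nm.add (Nm.add (num k) Nm.one) (pair Nm (num j) x) ∈ X) =
        fun x => Nm.add (Nm.add (num k) Nm.one) (pair Nm (num j) x) ∈ Y := by
      funext x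
      exact propext ((row_std h j hi' x).trans (row_std h' j hi' x).symm)
    rw [e]

/-! ### existence of solutions -/

/-- The standard solution. -/
def XS (k : ℕ) : Set ℕ :=
  {m | m = k ∨ ∃ i w, m = k + 1 + prn (i + 1) w ∧ i + 1 < k ∧ w ∈ Jl (i + 1)}

theorem XS_row {k i x : ℕ} (hi : i < k) : k + 1 + prn i x ∈ XS k ↔ x ∈ Jl i := by
  constructor
  · rintro (h | ⟨i', w, h1, h2, h3⟩)
    · omega
    · have h4 : prn i x = prn (i' + 1) w := by omega
      obtain ⟨rfl, rfl⟩ := prn_inj h4
      exact h3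
  · intro h
    cases i with
    | zero => exact h.elim
    | succ i => exact Or.inr ⟨i, x, rfl, hi, h⟩

theorem XS_sol (k : ℕ) : Sol St (· ∈ Pm) (· ∈ XS k) k := by
  refine ⟨Or.inl rfl, ?_, ?_⟩
  · rintro m hm (h | ⟨i, w, h, -⟩)
    · have : m < k := hm
      omega
    · have : m < k := hm
      omega
  · intro z
    constructor
    · rintro (h | ⟨i, w, h1, h2, h3⟩)
      · exfalso
        have : k + 1 + z = k := h
        omega
      · have h1' : k + 1 + z = k + 1 + prn (i + 1) w := h1
        refine ⟨i, w, ?_, h2, ?_⟩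
        · exact Nat.add_left_cancel h1'
        · have h4 : Jop St (· ∈ Pm) (· ∈ Jl i) w := h3
          have e : (fun x => St.add (St.add k St.one) (pair St i x) ∈ XS k) = (· ∈ Jl i) := by
            funext x
            exact propext (XS_row (by omega))
          rw [e]; exact h4
    · rintro ⟨i, w, h1, h2, h3⟩
      have h2' : i + 1 < k := h2
      refine Or.inr ⟨i, w, ?_, h2', ?_⟩
      · show k + 1 + z = k + 1 + prn (i + 1) w
        rw [h1]; rfl
      · have e : (fun x => St.add (St.add k St.one) (pair St i x) ∈ XS k) = (· ∈ Jl i) := by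
          funext x
          exact propext (XS_row (Nat.lt_of_succ_lt h2'))
        rw [e] at h3
        exact h3

theorem XS_level (k : ℕ) : ∃ m, XS k ∈ Sc m := by
  have hb : ∀ b : ℕ, ∃ m, {m | m = k ∨ ∃ i w, m = k + 1 + prn (i + 1) w ∧ i + 1 < b ∧
      w ∈ Jl (i + 1)} ∈ Sc m := by
    intro b
    induction b with
    | zero =>
      have hUF : UF fun N X v => v 0 = v 1 := UF.eq (UT.var 0) (UT.var 1)
      obtain ⟨φ, hφ⟩ := hUF
      obtain ⟨m, hm⟩ := closure_one (fun _ : ℕ => 0) φ
      refine ⟨m, ?_⟩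
      have h := hm (fun e => e.elim) (fun _ => ∅) (fun _ => k) (fun _ => empty_mem 0)
      have e : {n : ℕ | φ.Holds St (fun e => e.elim) (fun _ => ∅) (cons n fun _ => k)} =
          {m | m = k ∨ ∃ i w, m = k + 1 + prn (i + 1) w ∧ i + 1 < 0 ∧ w ∈ Jl (i + 1)} := by
        ext n
        simp only [Set.mem_ofPred_eq]
        rw [hφ]
        constructor
        · intro h; exact Or.inl h
        · rintro (h | ⟨i, w, -, h, -⟩)
          · exact h
          · omega
      exact Eq.subst (motive := fun S : Set ℕ => S ∈ Sc m) e h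
    | succ b ih =>
      obtain ⟨m₁, hm₁⟩ := ih
      obtain ⟨m₂, hm₂⟩ := Jl_mem b
      have hUF : UF fun N X v => v 0 ∈ X 0 ∨ ∃ w, v 0 = N.add (N.add (v 1) N.one)
          (pair N (v 2) w) ∧ w ∈ X 1 := by
        refine UF.or (UF.mem (UT.var 0) 0) (UF.ex (UF.and (UF.eq (UT.var 1)
          (((UT.var 2).add UT.one).add ((UT.var 3).pair (UT.var 0)))) (UF.mem (UT.var 0) 1)))
      obtain ⟨φ, hφ⟩ := hUF
      obtain ⟨m, hm⟩ := closure_one (fun s : ℕ => if s = 0 then m₁ else m₂) φ
      refine ⟨m, ?_⟩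
      have h := hm (fun e => e.elim) (fun s => if s = 0 then {m | m = k ∨ ∃ i w,
        m = k + 1 + prn (i + 1) w ∧ i + 1 < b ∧ w ∈ Jl (i + 1)} else Jl b)
        (cons k fun _ => b) (by
          intro s
          by_cases hs : s = 0
          · simp only [hs, if_true]; exact hm₁
          · simp only [hs, if_false]; exact hm₂)
      have e : {n : ℕ | φ.Holds St (fun e => e.elim) (fun s => if s = 0 then {m | m = k ∨
          ∃ i w, m = k + 1 + prn (i + 1) w ∧ i + 1 < b ∧ w ∈ Jl (i + 1)} else Jl b)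
          (cons n (cons k fun _ => b))} =
          {m | m = k ∨ ∃ i w, m = k + 1 + prn (i + 1) w ∧ i + 1 < b + 1 ∧
            w ∈ Jl (i + 1)} := by
        ext n
        simp only [Set.mem_ofPred_eq]
        rw [hφ]
        constructor
        · rintro ((h | ⟨i, w, h1, h2, h3⟩) | ⟨w, h1, h2⟩)
          · exact Or.inl h
          · exact Or.inr ⟨i, w, h1, by omega, h3⟩
          · cases b with
            | zero => exact h2.elim
            | succ b => exact Or.inr ⟨b, w, h1, by omega, h2⟩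
        · rintro (h | ⟨i, w, h1, h2, h3⟩)
          · exact Or.inl (Or.inl h)
          · rcases Nat.lt_or_ge (i + 1) b with h4 | h4
            · exact Or.inl (Or.inr ⟨i, w, h1, h4, h3⟩)
            · have h5 : i + 1 = b := by omega
              subst h5
              exact Or.inr ⟨w, h1, h3⟩
      exact Eq.subst (motive := fun S : Set ℕ => S ∈ Sc m) e h
  exact hb k

theorem uf_sol : UF fun N X v => Sol N (· ∈ X 0) (· ∈ X 1) (v 0) :=
  UF.sol (p := fun _ X _ x => x ∈ X 0) (q := fun _ X _ x => x ∈ X 1) (UT.var 0)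
    (UF.mem (UT.var 0) 0) (UF.mem (UT.var 0) 1)

/-- Every standard number is the first element of a solution. -/
theorem exists_sol (k : ℕ) : ∃ X ∈ Nm.Sets, SolK X (num k) := by
  obtain ⟨m, hm⟩ := XS_level k
  refine ⟨trace fun _ => XS k, mem_Sets.2 ⟨m, _, fun _ => hm, rfl⟩, ?_⟩
  have h := los_UF uf_sol (fun s _ => if s = 0 then Pm else XS k) (fun _ _ => k)
  exact h.2 (Eventually.of_forall fun _ => XS_sol k)

/-! ### the failure of the scheme -/

theorem not_ABW : ¬ ABW Nm := by
  intro hABW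
  -- the formula
  obtain ⟨φ, hφ⟩ : UF fun N X v => ∃ n, Sol N (· ∈ X 1) (· ∈ X 0) n :=
    UF.ex (UF.sol (p := fun N X v x => x ∈ X 1) (q := fun N X v x => x ∈ X 0) (UT.var 0)
      (UF.mem (UT.var 0) 1) (UF.mem (UT.var 0) 0))
  set A : AFormula Nm := fmap (fun e => e.elim)
    (fun s : ℕ => if s = 0 then none else some ⟨Ps, Ps_mem⟩) φ with hA
  have hAX : ∀ (X : Set K) (v : ℕ → K), AHolds Nm A X v ↔ ∃ n, SolK X n := by
    intro X v
    unfold AHolds
    rw [hA, holds_fmap]
    have h := hφ Nm (fun s => asg Nm X (if s = 0 then none else some ⟨Ps, Ps_mem⟩)) v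
    have e : (fun a : Empty => (Empty.elim a : K)) = fun e => e.elim := rfl
    exact h
  rcases hABW A (fun _ => 0) with ⟨Z, hZ, j, hZj⟩ | ⟨X, hX, hacc⟩
  · -- the solutions are not listed
    set D : Set K := {n | ∃ i, i < j ∧ SolK (sec Nm Z i) n} with hD
    have hDm : D ∈ Nm.Sets := by
      have hUF : UF fun N X v => ∃ i, N.lt i (v 1) ∧
          Sol N (· ∈ X 1) (fun x => pair N i x ∈ X 0) (v 0) := by
        refine UF.ex (UF.and (UF.lt (UT.var 0) (UT.var 2)) ?_)
        exact UF.sol (p := fun N X v x => x ∈ X 1) (q := fun N X v x => pair N (v 0) x ∈ X 0)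
          (UT.var 1) (UF.mem (UT.var 0) 1) (UF.mem ((UT.var 1).pair (UT.var 0)) 0)
      exact comp_UF hUF (fun s => if s = 0 then Z else Ps) (by
        intro s
        by_cases hs : s = 0
        · simp only [hs, if_true]; exact hZ
        · simp only [hs, if_false]; exact Ps_mem) (fun _ => j)
    have hstd : ∀ k, num k ∈ D := by
      intro k
      obtain ⟨X, hX, hXk⟩ := exists_sol k
      obtain ⟨i, hi, rfl⟩ := hZj X hX ((hAX X _).2 ⟨_, hXk⟩)
      exact ⟨i, hi, hXk⟩
    have hD2 : ∀ n ∈ D, ∃ k, n = num k := by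
      rintro n ⟨i, -, hi⟩
      exact first_std (sec_mem hZ i) hi
    have hall := ind hDm (hstd 0) (fun n hn => by
      obtain ⟨k, rfl⟩ := hD2 n hn
      exact hstd (k + 1)) om
    obtain ⟨k, hk⟩ := hD2 _ hall
    have := num_lt_om k
    rw [hk] at this
    exact lt_irrefl _ this
  · -- there is no accumulation point
    have key : ∀ (Y Y' : Set K) (n n' m : K), SolK Y n → SolK Y' n' → n < m →
        (∀ k, k < m → (k ∈ Y ↔ k ∈ X)) → (∀ k, k < m → (k ∈ Y' ↔ k ∈ X)) → n' ≤ n := by
      intro Y Y' n n' m h h' hn h1 h2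
      by_contra hcon
      rw [not_le] at hcon
      exact h'.2.1 n hcon ((h2 n hn).2 ((h1 n hn).1 h.1))
    by_cases hne : ∃ x, x ∈ X
    · obtain ⟨x, hx⟩ := hne
      obtain ⟨Y₁, hY₁, Y₂, hY₂, hne, hA₁, hA₂, h1, h2⟩ := hacc (x + 1)
      rw [hAX] at hA₁ hA₂
      obtain ⟨n₁, hn₁⟩ := hA₁
      obtain ⟨n₂, hn₂⟩ := hA₂
      have hxlt := lt_succ_self' x
      have l₁ : n₁ < x + 1 := by
        by_contra hcon
        exact hn₁.2.1 x (lt_of_lt_of_le hxlt (not_lt.1 hcon)) ((h1 x hxlt).2 hx)
      have l₂ : n₂ < x + 1 := by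
        by_contra hcon
        exact hn₂.2.1 x (lt_of_lt_of_le hxlt (not_lt.1 hcon)) ((h2 x hxlt).2 hx)
      have e : n₁ = n₂ := le_antisymm (key Y₂ Y₁ n₂ n₁ _ hn₂ hn₁ l₂ h2 h1)
        (key Y₁ Y₂ n₁ n₂ _ hn₁ hn₂ l₁ h1 h2)
      subst e
      exact hne (sol_unique hY₁ hn₁ hn₂)
    · push Not at hne
      obtain ⟨Y₁, hY₁, Y₂, hY₂, -, hA₁, -, h1, -⟩ := hacc om
      rw [hAX] at hA₁
      obtain ⟨n₁, hn₁⟩ := hA₁
      obtain ⟨k, rfl⟩ := first_std hY₁ hn₁
      exact hne _ ((h1 _ (num_lt_om k)).1 hn₁.1)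

end Pool.Agent.Q205.FC
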