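import Pool.Agent.Q205.FC.Ultra

/-!
The model satisfies `Σ¹₁-AC₀`.
-/

namespace Pool.Agent.Q205.FC

open Filter Pool.Agent.Q205.RS

/-! ### replacing a set variable by a section -/

/-- `X` is replaced by the section with index the variable `q`. -/
def plug {C S : Type} : Formula C (Option S) → ℕ → Formula C (Option S)
  | .eq s t, _ => .eq s t
  | .lt s t, _ => .lt s t
  | .mem t none, q => .mem (.add (.mul (.add (.var q) t) (.add (.var q) t)) (.var q)) none
  | .mem t (some s), _ => .mem t (some s)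
  | .neg φ, q => .neg (plug φ q)
  | .and φ ψ, q => .and (plug φ q) (plug ψ q)
  | .ball t φ, q => .ball t (plug φ (q + 1))
  | .all φ, q => .all (plug φ (q + 1))

/-- Interpretation of the set symbols. -/
def asg' {M S : Type} (X : Set M) (Y : S → Set M) : Option S → Set M
  | none => X
  | some s => Y s

theorem holds_plug (N : L2Structure) {C S : Type} (c : C → N.M) (J : Set N.M) (Y : S → Set N.M)
    (φ : Formula C (Option S)) : ∀ (q : ℕ) (v : ℕ → N.M),
    (plug φ q).Holds N c (asg' J Y) v ↔ φ.Holds N c (asg' (sec N J (v q)) Y) v := by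
  induction φ with
  | eq s t => intro q v; exact Iff.rfl
  | lt s t => intro q v; exact Iff.rfl
  | mem t s =>
    intro q v
    cases s with
    | none => exact Iff.rfl
    | some s => exact Iff.rfl
  | neg φ ih => intro q v; exact not_congr (ih q v)
  | and φ ψ ih1 ih2 => intro q v; exact and_congr (ih1 q v) (ih2 q v)
  | ball t φ ih =>
    intro q v
    exact forall_congr' fun a => imp_congr Iff.rfl (ih (q + 1) (cons a v))
  | all φ ih =>
    intro q v
    exact forall_congr' fun a => ih (q + 1) (cons a v)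

theorem asg_eq (N : L2Structure) (X : Set N.M) :
    asg N X = asg' X (fun s : N.Sets => (s : Set N.M)) := by
  funext s; cases s <;> rfl

/-! ### definability in the model -/

/-- Relations on contexts which are definable from `J` and parameters. -/
def Df (J : Set K) (R : (ℕ → K) → Prop) : Prop :=
  ∃ φ : AFormula Nm, ∀ v, AHolds Nm φ J v ↔ R v

section

variable {J : Set K} {R S : (ℕ → K) → Prop}

theorem Df.congr (hR : Df J R) (h : ∀ v, R v ↔ S v) : Df J S := by
  obtain ⟨φ, hφ⟩ := hR
  exact ⟨φ, fun v => (hφ v).trans (h v)⟩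

theorem Df.not (hR : Df J R) : Df J fun v => ¬ R v := by
  obtain ⟨φ, hφ⟩ := hR
  exact ⟨.neg φ, fun v => not_congr (hφ v)⟩

theorem Df.and (hR : Df J R) (hS : Df J S) : Df J fun v => R v ∧ S v := by
  obtain ⟨φ, hφ⟩ := hR
  obtain ⟨ψ, hψ⟩ := hS
  exact ⟨.and φ ψ, fun v => and_congr (hφ v) (hψ v)⟩

theorem Df.imp (hR : Df J R) (hS : Df J S) : Df J fun v => R v → S v :=
  (hR.and hS.not).not.congr fun v => by tauto

theorem Df.all {P : (ℕ → K) → K → Prop} (h : Df J fun w => P (fun i => w (i + 1)) (w 0)) :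
    Df J fun v => ∀ x, P v x := by
  obtain ⟨φ, hφ⟩ := h
  exact ⟨.all φ, fun v => forall_congr' fun a => hφ (cons a v)⟩

theorem Df.ex {P : (ℕ → K) → K → Prop} (h : Df J fun w => P (fun i => w (i + 1)) (w 0)) :
    Df J fun v => ∃ x, P v x :=
  (Df.all (P := fun v x => ¬ P v x) h.not).not.congr fun v => by push Not; rfl

/-- The term of a pair of variables. -/
def prT (i j : ℕ) : Term K := .add (.mul (.add (.var i) (.var j)) (.add (.var i) (.var j))) (.var i)

theorem Df.mem_pair (i j : ℕ) : Df J fun v => pair Nm (v i) (v j) ∈ J :=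
  ⟨.mem (prT i j) none, fun _ => Iff.rfl⟩

theorem Df.eq_pair (k i j : ℕ) : Df J fun v => v k = pair Nm (v i) (v j) :=
  ⟨.eq (.var k) (prT i j), fun _ => Iff.rfl⟩

theorem Df.lt (i j : ℕ) : Df J fun v => v i < v j := ⟨.lt (.var i) (.var j), fun _ => Iff.rfl⟩

theorem Df.sec (A : AFormula Nm) (q : ℕ) (g : ℕ → ℕ) :
    Df J fun v => AHolds Nm A (sec Nm J (v q)) (fun i => v (g i)) := by
  refine ⟨plug (A.subst fun i => .var (g i)) q, fun v => ?_⟩
  unfold AHolds
  rw [asg_eq, holds_plug, Formula.holds_subst]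
  beta_reduce
  rw [asg_eq Nm (FC.sec Nm J (v q))]
  exact Iff.rfl

theorem Df.comp (hR : Df J R) (hJ : J ∈ Nm.Sets) (v : ℕ → K) :
    {n | R (cons n v)} ∈ Nm.Sets := by
  obtain ⟨φ, hφ⟩ := hR
  have h := FC.comp φ (fun a => a) (asg Nm J) (by
    intro s
    cases s with
    | none => exact hJ
    | some s => exact s.2) v
  have e : {n | φ.Holds Nm (fun a => a) (asg Nm J) (cons n v)} = {n | R (cons n v)} := by
    ext n
    exact hφ (cons n v)
  rwa [e] at h

end

/-! ### the pairing function of the model -/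

theorem pair_gm (f g : ℕ → ℕ) : pair Nm (gm f) (gm g) = gm fun i => prn (f i) (g i) := rfl

theorem pair_inj {a b c d : K} (h : pair Nm a b = pair Nm c d) : a = c ∧ b = d := by
  rw [← gm_rep a, ← gm_rep b, ← gm_rep c, ← gm_rep d, pair_gm, pair_gm, gm_eq] at h
  rw [← gm_rep a, ← gm_rep b, ← gm_rep c, ← gm_rep d, gm_eq, gm_eq]
  exact ⟨h.mono fun i hi => (prn_inj hi).1, h.mono fun i hi => (prn_inj hi).2⟩

/-- The internal set given by a level. -/
def JJ (k : ℕ) : Set K := trace fun _ => Jl k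

theorem JJ_mem (k : ℕ) : JJ k ∈ Nm.Sets := by
  obtain ⟨m, hm⟩ := Jl_mem k
  rw [mem_Sets]
  exact ⟨m, _, fun _ => hm, rfl⟩

theorem sec_JJ (k : ℕ) (a : ℕ → ℕ) :
    sec Nm (JJ k) (gm a) = trace fun i => {x | prn (a i) x ∈ Jl k} := by
  ext x
  rw [← gm_rep x, mem_trace]
  show pair Nm (gm a) (gm (rep x)) ∈ JJ k ↔ _
  rw [pair_gm]
  unfold JJ
  rw [mem_trace]
  exact Iff.rfl

theorem mem_Sets' {X : Set K} : X ∈ Nm.Sets ↔ ∃ (k : ℕ) (a : K), X = sec Nm (JJ k) a := by
  constructor
  · rintro ⟨k, a, rfl⟩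
    exact ⟨k, gm a, (sec_JJ k a).symm⟩
  · rintro ⟨k, a, rfl⟩
    refine ⟨k, rep a, ?_⟩
    rw [← sec_JJ, gm_rep]

/-! ### the choice scheme -/

theorem sigmaAC : SigmaAC Nm := by
  classical
  intro A v hA
  -- truth in the factors
  choose lv B hB hBX using fun s : Nm.Sets => mem_Sets.1 s.2
  set T : ℕ → Set ℕ → ℕ → Prop := fun i X n =>
    A.Holds St (fun c => rep c i) (asg' X fun s => B s i) (cons n fun j => rep (v j) i) with hT
  have hlos : ∀ (X : ℕ → Set ℕ) (f : ℕ → ℕ), AHolds Nm A (trace X) (cons (gm f) v) ↔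
      ∀ᶠ i in (hyperfilter ℕ : Filter ℕ), T i (X i) (f i) := by
    intro X f
    have h := los A (fun c : K => rep c) (fun s i => asg' (X i) (fun s => B s i) s)
      (cons f fun j => rep (v j))
    have h1 : (fun a => gm (rep a)) = fun a : K => a := by funext a; exact gm_rep _
    have h2 : (fun s : Option Nm.Sets => trace fun i => asg' (X i) (fun s => B s i) s) =
        asg Nm (trace X) := by
      funext s
      cases s with
      | none => rfl
      | some s => exact (hBX s).symm
    have h3 : (fun k => gm (cons f (fun j => rep (v j)) k)) = cons (gm f) v := by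
      funext j
      cases j with
      | zero => rfl
      | succ j => exact gm_rep _
    have h4 : ∀ i, (fun k => cons f (fun j => rep (v j)) k i) =
        cons (f i) fun j => rep (v j) i := by
      intro i; funext j; cases j <;> rfl
    have h5 : ∀ i, (fun s : Option Nm.Sets => asg' (X i) (fun s => B s i) s) =
        asg' (X i) fun s => B s i := fun i => rfl
    rw [h1, h2, h3] at h
    simp only [h4] at h
    exact h
  -- a bound for the levels
  have hK : ∃ k : ℕ, ∀ n : K, ∃ a : K, AHolds Nm A (sec Nm (JJ k) a) (cons n v) := by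
    by_contra hcon
    push Not at hcon
    set bad : ℕ → ℕ → ℕ → Prop := fun i k n => ∀ a : ℕ, ¬ T i {x | prn a x ∈ Jl k} n with hbad
    have h1 : ∀ k, ∀ᶠ i in (hyperfilter ℕ : Filter ℕ), ∃ n, bad i k n := by
      intro k
      obtain ⟨n, hn⟩ := hcon k
      have h2 : ∀ᶠ i in (hyperfilter ℕ : Filter ℕ), bad i k (rep n i) := by
        by_contra h3
        rw [← Ultrafilter.eventually_not] at h3
        have h4 : ∀ᶠ i in (hyperfilter ℕ : Filter ℕ),
            ∃ a : ℕ, T i {x | prn a x ∈ Jl k} (rep n i) := by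
          filter_upwards [h3] with i hi
          by_contra h5
          push Not at h5
          exact hi h5
        let a : ℕ → ℕ := fun i => Classical.epsilon fun a : ℕ =>
          T i {x | prn a x ∈ Jl k} (rep n i)
        have h5 : ∀ᶠ i in (hyperfilter ℕ : Filter ℕ),
            T i {x | prn (a i) x ∈ Jl k} (rep n i) := by
          filter_upwards [h4] with i hi
          exact Classical.epsilon_spec hi
        apply hn (gm a)
        rw [sec_JJ]
        have h6 := (hlos (fun i => {x | prn (a i) x ∈ Jl k}) (rep n)).2 h5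
        rwa [gm_rep] at h6
      exact h2.mono fun i hi => ⟨_, hi⟩
    have hmono : ∀ i k k' n, k' ≤ k → bad i k n → bad i k' n := by
      intro i k k' n hk hb a ha
      obtain ⟨a', ha'⟩ := Sc.mono hk (A := {x | prn a x ∈ Jl k'}) ⟨a, rfl⟩
      rw [ha'] at ha
      exact hb a' ha
    set g : ℕ → ℕ := fun i => Nat.findGreatest (fun k => ∃ n, bad i k n) i with hg
    set f : ℕ → ℕ := fun i => if h : ∃ n, bad i (g i) n then h.choose else 0 with hf
    have h2 : ∀ k, ∀ᶠ i in (hyperfilter ℕ : Filter ℕ), bad i k (f i) := by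
      intro k
      filter_upwards [h1 k, ev_gt k] with i hi hi'
      have h3 : k ≤ g i := Nat.le_findGreatest hi'.le hi
      have h4 : ∃ n, bad i (g i) n :=
        Nat.findGreatest_spec (P := fun k => ∃ n, bad i k n) hi'.le hi
      have h5 : f i = h4.choose := dif_pos h4
      refine hmono i (g i) k (f i) h3 ?_
      rw [h5]
      exact h4.choose_spec
    obtain ⟨X, hX, hAX⟩ := hA (gm f)
    obtain ⟨k, a, rfl⟩ := hX
    rw [hlos] at hAX
    obtain ⟨i, h3, h4⟩ := (hAX.and (h2 k)).exists
    exact h4 (a i) h3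
  obtain ⟨k, hk⟩ := hK
  -- the choice set
  set Q : K → K → Prop := fun n a => AHolds Nm A (sec Nm (JJ k) a) (cons n v) with hQ
  set Y : Set K := {z | ∃ n x a, z = pair Nm n x ∧ pair Nm a x ∈ JJ k ∧ Q n a ∧
    ∀ b, b < a → ¬ Q n b} with hY
  have hYm : Y ∈ Nm.Sets := by
    have hD : Df (JJ k) fun w => ∃ n x a, w 0 = pair Nm n x ∧ pair Nm a x ∈ JJ k ∧
        AHolds Nm A (sec Nm (JJ k) a) (cons n fun j => w (j + 1)) ∧
        ∀ b, b < a → ¬ AHolds Nm A (sec Nm (JJ k) b) (cons n fun j => w (j + 1)) := by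
      refine Df.ex (Df.ex (Df.ex ?_))
      refine Df.and (Df.eq_pair 3 2 1) (Df.and (Df.mem_pair 0 1) (Df.and ?_ ?_))
      · refine (Df.sec A 0 (cons 2 fun j => j + 4)).congr fun w => ?_
        have e : (fun i => w (cons 2 (fun j => j + 4) i)) = cons (w 2) fun j => w (j + 4) := by
          funext i; cases i <;> rfl
        rw [e]
      · refine Df.all (Df.imp (Df.lt 0 1) (Df.not ?_))
        refine (Df.sec A 0 (cons 3 fun j => j + 5)).congr fun w => ?_
        have e : (fun i => w (cons 3 (fun j => j + 5) i)) = cons (w 3) fun j => w (j + 5) := by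
          funext i; cases i <;> rfl
        rw [e]
    exact hD.comp (JJ_mem k) v
  refine ⟨Y, hYm, fun n => ?_⟩
  have hDm : {a | Q n a} ∈ Nm.Sets := by
    have hD : Df (JJ k) fun w => AHolds Nm A (sec Nm (JJ k) (w 0)) (fun i => w (i + 1)) :=
      Df.sec A 0 (fun i => i + 1)
    exact hD.comp (JJ_mem k) (cons n v)
  obtain ⟨a₁, ha₁⟩ := hk n
  obtain ⟨a, ha, hmin⟩ := exists_least hDm (x := a₁) ha₁
  have hsec : sec Nm Y n = sec Nm (JJ k) a := by
    ext x
    constructor
    · rintro ⟨n', x', a', h1, h2, h3, h4⟩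
      obtain ⟨rfl, rfl⟩ := pair_inj h1
      have h5 : a' = a := by
        rcases lt_trichotomy a' a with h | h | h
        · exact absurd h3 (hmin a' h)
        · exact h
        · exact absurd ha (h4 a h)
      rw [← h5]; exact h2
    · intro hx
      exact ⟨n, x, a, rfl, hx, ha, fun b hb => hmin b hb⟩
  rw [hsec]
  exact ha

theorem sec_mem {Z : Set K} (hZ : Z ∈ Nm.Sets) (i : K) : sec Nm Z i ∈ Nm.Sets := by
  have hUF : UF fun N X v => pair N (v 1) (v 0) ∈ X 0 := UF.mem ((UT.var 1).pair (UT.var 0)) 0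
  exact comp_UF hUF (fun _ => Z) (fun _ => hZ) (fun _ => i)

theorem finiteSigmaAC : FiniteSigmaAC Nm := by
  intro A v h
  refine sigmaAC A v fun n => ?_
  obtain ⟨Z, hZ, j, hj, h1⟩ := h n
  exact ⟨sec Nm Z 0, sec_mem hZ 0, (h1 _ (sec_mem hZ 0)).2 ⟨0, hj, rfl⟩⟩

end Pool.Agent.Q205.FC
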