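import Pool.Agent.Q205.RS.Defs

/-!
Choice schemes for `Σ¹₁` formulas and the arithmetic Bolzano-Weierstrass scheme.
-/

namespace Pool.Agent.Q205.FC

open Pool.Agent.Q205.RS

variable (N : L2Structure)

/-- `N` is a model of `RCA₀`: the axioms of discretely ordered commutative semirings, induction for
`Σ⁰₁` formulas with parameters, and comprehension for `Δ⁰₁` formulas with parameters. -/
structure IsRCA0 : Prop where
  add_comm : ∀ a b, N.add a b = N.add b a
  add_assoc : ∀ a b c, N.add (N.add a b) c = N.add a (N.add b c)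
  add_zero : ∀ a, N.add a N.zero = a
  mul_comm : ∀ a b, N.mul a b = N.mul b a
  mul_assoc : ∀ a b c, N.mul (N.mul a b) c = N.mul a (N.mul b c)
  mul_one : ∀ a, N.mul a N.one = a
  mul_zero : ∀ a, N.mul a N.zero = N.zero
  mul_add : ∀ a b c, N.mul a (N.add b c) = N.add (N.mul a b) (N.mul a c)
  lt_irrefl : ∀ a, ¬ N.lt a a
  lt_trans : ∀ a b c, N.lt a b → N.lt b c → N.lt a c
  lt_total : ∀ a b, N.lt a b ∨ a = b ∨ N.lt b a
  add_lt_add : ∀ a b c, N.lt a b → N.lt (N.add a c) (N.add b c)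
  mul_lt_mul : ∀ a b c, N.lt N.zero c → N.lt a b → N.lt (N.mul a c) (N.mul b c)
  exists_add : ∀ a b, N.lt a b → ∃ c, N.add a c = b
  zero_lt_one : N.lt N.zero N.one
  discrete : ∀ a, a = N.zero ∨ a = N.one ∨ N.lt N.one a
  sigma1_induction : ∀ θ : PFormula N, θ.Bounded → ∀ v : ℕ → N.M,
    (∃ k, PHolds N θ (cons k (cons N.zero v))) →
    (∀ n, (∃ k, PHolds N θ (cons k (cons n v))) →
      ∃ k, PHolds N θ (cons k (cons (N.add n N.one) v))) →
    ∀ n, ∃ k, PHolds N θ (cons k (cons n v))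
  delta1_comprehension : ∀ θ ψ : PFormula N, θ.Bounded → ψ.Bounded → ∀ v : ℕ → N.M,
    (∀ n, (∃ k, PHolds N θ (cons k (cons n v))) ↔ ∀ k, PHolds N ψ (cons k (cons n v))) →
    {n | ∃ k, PHolds N θ (cons k (cons n v))} ∈ N.Sets

/-- Interpretation of the set symbols: `none` is the free set variable, with value `X`, and the
other symbols are set parameters. -/
def asg (X : Set N.M) : Option N.Sets → Set N.M
  | none => X
  | some Y => Y.1

/-- Arithmetic formulas `A(X)` with number and set parameters, a free set variable (`none`) and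
free number variables. -/
abbrev AFormula : Type := Formula N.M (Option N.Sets)

/-- `A(X)` is true in `N` under the assignment `v` of the number variables. -/
def AHolds (A : AFormula N) (X : Set N.M) (v : ℕ → N.M) : Prop :=
  A.Holds N (fun a => a) (asg N X) v

/-- `Y^[n] = {m | (n, m) ∈ Y}`. -/
def sec (Y : Set N.M) (n : N.M) : Set N.M := {m | pair N n m ∈ Y}

/-- The scheme of `Σ¹₁-AC₀`. -/
def SigmaAC : Prop := ∀ (A : AFormula N) (v : ℕ → N.M),
  (∀ n, ∃ X ∈ N.Sets, AHolds N A X (cons n v)) →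
  ∃ Y ∈ N.Sets, ∀ n, AHolds N A (sec N Y n) (cons n v)

/-- The scheme of `finite-Σ¹₁-AC₀`. A nonempty finite sequence of sets is given by a set `Z` and a
number `j > 0`; its members are the sets `Z^[i]`, `i < j`. -/
def FiniteSigmaAC : Prop := ∀ (A : AFormula N) (v : ℕ → N.M),
  (∀ n, ∃ Z ∈ N.Sets, ∃ j, N.lt N.zero j ∧ ∀ X ∈ N.Sets,
    (AHolds N A X (cons n v) ↔ ∃ i, N.lt i j ∧ X = sec N Z i)) →
  ∃ Y ∈ N.Sets, ∀ n, AHolds N A (sec N Y n) (cons n v)

/-- The scheme `ABW`: for every arithmetic `A(X)` either some finite sequence of sets contains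
every `X` with `A(X)`, or there is an accumulation point: a set `X` such that for every `m` there
are two distinct sets with `A` which agree with `X` below `m`. -/
def ABW : Prop := ∀ (A : AFormula N) (v : ℕ → N.M),
  (∃ Z ∈ N.Sets, ∃ j, ∀ X ∈ N.Sets, AHolds N A X v → ∃ i, N.lt i j ∧ X = sec N Z i) ∨
  ∃ X ∈ N.Sets, ∀ m, ∃ Y₁ ∈ N.Sets, ∃ Y₂ ∈ N.Sets, Y₁ ≠ Y₂ ∧ AHolds N A Y₁ v ∧
    AHolds N A Y₂ v ∧ (∀ k, N.lt k m → (k ∈ Y₁ ↔ k ∈ X)) ∧ ∀ k, N.lt k m → (k ∈ Y₂ ↔ k ∈ X)

end Pool.Agent.Q205.FC
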