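import Pool.Agent.Q205.FC.Defs
import Pool.Agent.Q205.RS.Definable

/-!
Relations which are uniformly definable in all structures, and the standard hierarchy.
-/

namespace Pool.Agent.Q205.FC

open Pool.Agent.Q205.RS

deriving instance Countable for Term

/-! ### uniform definability -/

/-- Families of functions given by terms. -/
def UT (t : ∀ N : L2Structure, (ℕ → N.M) → N.M) : Prop :=
  ∃ τ : Term Empty, ∀ N v, τ.val N (fun e => e.elim) v = t N v

/-- Families of relations given by arithmetic formulas. -/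
def UF (R : ∀ N : L2Structure, (ℕ → Set N.M) → (ℕ → N.M) → Prop) : Prop :=
  ∃ φ : Formula Empty ℕ, ∀ N X v, φ.Holds N (fun e => e.elim) X v ↔ R N X v

theorem UT.var (i : ℕ) : UT fun _ v => v i := ⟨.var i, fun _ _ => rfl⟩
theorem UT.zero : UT fun N _ => N.zero := ⟨.zero, fun _ _ => rfl⟩
theorem UT.one : UT fun N _ => N.one := ⟨.one, fun _ _ => rfl⟩
theorem UT.add {s t : ∀ N : L2Structure, (ℕ → N.M) → N.M} (hs : UT s) (ht : UT t) :
    UT fun N v => N.add (s N v) (t N v) := by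
  obtain ⟨σ, hσ⟩ := hs
  obtain ⟨τ, hτ⟩ := ht
  exact ⟨.add σ τ, fun N v => by simp only [Term.val, hσ, hτ]⟩
theorem UT.mul {s t : ∀ N : L2Structure, (ℕ → N.M) → N.M} (hs : UT s) (ht : UT t) :
    UT fun N v => N.mul (s N v) (t N v) := by
  obtain ⟨σ, hσ⟩ := hs
  obtain ⟨τ, hτ⟩ := ht
  exact ⟨.mul σ τ, fun N v => by simp only [Term.val, hσ, hτ]⟩
theorem UT.pair {s t : ∀ N : L2Structure, (ℕ → N.M) → N.M} (hs : UT s) (ht : UT t) :
    UT fun N v => RS.pair N (s N v) (t N v) :=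
  (((hs.add ht).mul (hs.add ht)).add hs)

theorem UT.comp {t : ∀ N : L2Structure, (ℕ → N.M) → N.M} (ht : UT t)
    {g : ∀ N : L2Structure, (ℕ → N.M) → (ℕ → N.M)} (hg : ∀ i, UT fun N v => g N v i) :
    UT fun N v => t N (g N v) := by
  obtain ⟨τ, hτ⟩ := ht
  choose σ hσ using hg
  refine ⟨τ.subst σ, fun N v => ?_⟩
  have : (fun i => (σ i).val N (fun e => e.elim) v) = g N v := by funext i; exact hσ i N v
  rw [Term.val_subst, this]
  exact hτ _ _

section

variable {R S : ∀ N : L2Structure, (ℕ → Set N.M) → (ℕ → N.M) → Prop}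
  {s t : ∀ N : L2Structure, (ℕ → N.M) → N.M}

theorem UF.congr (hR : UF R) (h : ∀ N X v, R N X v ↔ S N X v) : UF S := by
  obtain ⟨φ, hφ⟩ := hR
  exact ⟨φ, fun N X v => (hφ N X v).trans (h N X v)⟩

theorem UF.comp (hR : UF R) {g : ∀ N : L2Structure, (ℕ → N.M) → (ℕ → N.M)}
    (hg : ∀ i, UT fun N v => g N v i) : UF fun N X v => R N X (g N v) := by
  obtain ⟨φ, hφ⟩ := hR
  choose σ hσ using hg
  refine ⟨φ.subst σ, fun N X v => ?_⟩
  have : (fun i => (σ i).val N (fun e => e.elim) v) = g N v := by funext i; exact hσ i N v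
  rw [Formula.holds_subst, this]
  exact hφ _ _ _

theorem UF.eq (hs : UT s) (ht : UT t) : UF fun N _ v => s N v = t N v := by
  obtain ⟨σ, hσ⟩ := hs
  obtain ⟨τ, hτ⟩ := ht
  exact ⟨.eq σ τ, fun N X v => by simp only [Formula.Holds, hσ, hτ]⟩

theorem UF.lt (hs : UT s) (ht : UT t) : UF fun N _ v => N.lt (s N v) (t N v) := by
  obtain ⟨σ, hσ⟩ := hs
  obtain ⟨τ, hτ⟩ := ht
  exact ⟨.lt σ τ, fun N X v => by simp only [Formula.Holds, hσ, hτ]⟩

theorem UF.mem (ht : UT t) (j : ℕ) : UF fun N X v => t N v ∈ X j := by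
  obtain ⟨τ, hτ⟩ := ht
  exact ⟨.mem τ j, fun N X v => by simp only [Formula.Holds, hτ]⟩

theorem UF.not (hR : UF R) : UF fun N X v => ¬ R N X v := by
  obtain ⟨φ, hφ⟩ := hR
  exact ⟨.neg φ, fun N X v => not_congr (hφ N X v)⟩

theorem UF.and (hR : UF R) (hS : UF S) : UF fun N X v => R N X v ∧ S N X v := by
  obtain ⟨φ, hφ⟩ := hR
  obtain ⟨ψ, hψ⟩ := hS
  exact ⟨.and φ ψ, fun N X v => and_congr (hφ N X v) (hψ N X v)⟩

theorem UF.or (hR : UF R) (hS : UF S) : UF fun N X v => R N X v ∨ S N X v :=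
  (hR.not.and hS.not).not.congr fun N X v => by tauto

theorem UF.imp (hR : UF R) (hS : UF S) : UF fun N X v => R N X v → S N X v :=
  (hR.and hS.not).not.congr fun N X v => by tauto

theorem UF.iff (hR : UF R) (hS : UF S) : UF fun N X v => (R N X v ↔ S N X v) :=
  ((hR.imp hS).and (hS.imp hR)).congr fun N X v => by tauto

/-- Universal quantification; `P N X v x` must be given on the context `cons x v`. -/
theorem UF.all {P : ∀ N : L2Structure, (ℕ → Set N.M) → (ℕ → N.M) → N.M → Prop}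
    (h : UF fun N X w => P N X (fun i => w (i + 1)) (w 0)) : UF fun N X v => ∀ x, P N X v x := by
  obtain ⟨φ, hφ⟩ := h
  exact ⟨.all φ, fun N X v => forall_congr' fun a => hφ N X (cons a v)⟩

theorem UF.ex {P : ∀ N : L2Structure, (ℕ → Set N.M) → (ℕ → N.M) → N.M → Prop}
    (h : UF fun N X w => P N X (fun i => w (i + 1)) (w 0)) : UF fun N X v => ∃ x, P N X v x :=
  (UF.all (P := fun N X v x => ¬ P N X v x) h.not).not.congr fun N X v => by push Not; rfl

/-- Application of a family of predicates to a term, in an extended context. -/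
theorem UF.app {q : ∀ N : L2Structure, (ℕ → Set N.M) → (ℕ → N.M) → N.M → Prop}
    (hq : UF fun N X w => q N X (fun i => w (i + 1)) (w 0)) (k : ℕ) (ht : UT t) :
    UF fun N X v => q N X (fun i => v (i + k)) (t N v) :=
  hq.comp (g := fun N v => cons (t N v) (fun i => v (i + k))) fun i => by
    cases i with
    | zero => exact ht
    | succ n => exact UT.var (n + k)

end

/-! ### the operator -/

/-- The operator which is iterated along the hierarchy; `p` and `q` are membership predicates of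
the parameter and the argument. -/
def Jop (N : L2Structure) (p q : N.M → Prop) (w : N.M) : Prop :=
  ∃ a x, w = pair N a x ∧
    ((∃ b c, a = pair N N.zero (pair N b c) ∧ ¬ (q (pair N b x) ∧ q (pair N c x))) ∨
    (∃ b, a = pair N N.one b ∧ ∀ y, q (pair N b (pair N y x))) ∨
    (∃ e b, a = pair N (N.add N.one N.one) (pair N e b) ∧
      ∃ y, p (pair N e (pair N x y)) ∧ q (pair N b y)) ∨
    (a = pair N (N.add (N.add N.one N.one) N.one) N.zero ∧ p x))

/-- `X` codes the hierarchy of length `n`. -/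
def Sol (N : L2Structure) (p q : N.M → Prop) (n : N.M) : Prop :=
  q n ∧ (∀ m, N.lt m n → ¬ q m) ∧ ∀ z, (q (N.add (N.add n N.one) z) ↔
    ∃ i w, z = pair N (N.add i N.one) w ∧ N.lt (N.add i N.one) n ∧
      Jop N p (fun x => q (N.add (N.add n N.one) (pair N i x))) w)

/-- Closure of uniformly definable families under the operator. -/
theorem UF.jop {p q : ∀ N : L2Structure, (ℕ → Set N.M) → (ℕ → N.M) → N.M → Prop}
    {w : ∀ N : L2Structure, (ℕ → N.M) → N.M} (hw : UT w)
    (hp : UF fun N X w => p N X (fun i => w (i + 1)) (w 0))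
    (hq : UF fun N X w => q N X (fun i => w (i + 1)) (w 0)) :
    UF fun N X v => Jop N (p N X v) (q N X v) (w N v) := by
  unfold Jop
  refine UF.ex (UF.ex ?_)
  refine UF.and (UF.eq (hw.comp (g := fun N v i => v (i + 2)) fun i => UT.var (i + 2))
    (UT.pair (UT.var 1) (UT.var 0))) ?_
  refine UF.or ?_ (UF.or ?_ (UF.or ?_ ?_))
  · refine UF.ex (UF.ex ?_)
    refine UF.and (UF.eq (UT.var 3) (UT.pair UT.zero (UT.pair (UT.var 1) (UT.var 0)))) ?_
    exact ((hq.app 4 (UT.pair (UT.var 1) (UT.var 2))).and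
      (hq.app 4 (UT.pair (UT.var 0) (UT.var 2)))).not
  · refine UF.ex ?_
    refine UF.and (UF.eq (UT.var 2) (UT.pair UT.one (UT.var 0))) ?_
    refine UF.all ?_
    exact hq.app 4 (UT.pair (UT.var 1) (UT.pair (UT.var 0) (UT.var 2)))
  · refine UF.ex (UF.ex ?_)
    refine UF.and (UF.eq (UT.var 3) (UT.pair (UT.one.add UT.one)
      (UT.pair (UT.var 1) (UT.var 0)))) ?_
    refine UF.ex ?_
    exact (hp.app 5 (UT.pair (UT.var 2) (UT.pair (UT.var 3) (UT.var 0)))).and
      (hq.app 5 (UT.pair (UT.var 1) (UT.var 0)))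
  · exact (UF.eq (UT.var 1) (UT.pair ((UT.one.add UT.one).add UT.one) UT.zero)).and
      (hp.app 2 (UT.var 0))

theorem UF.sol {p q : ∀ N : L2Structure, (ℕ → Set N.M) → (ℕ → N.M) → N.M → Prop}
    {n : ∀ N : L2Structure, (ℕ → N.M) → N.M} (hn : UT n)
    (hp : UF fun N X w => p N X (fun i => w (i + 1)) (w 0))
    (hq : UF fun N X w => q N X (fun i => w (i + 1)) (w 0)) :
    UF fun N X v => Sol N (p N X v) (q N X v) (n N v) := by
  have hn' : ∀ k : ℕ, UT fun N v => n N (fun i => v (i + k)) := fun k =>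
    hn.comp (g := fun N v i => v (i + k)) fun i => UT.var (i + k)
  unfold Sol
  refine UF.and (hq.app 0 hn) (UF.and ?_ ?_)
  · refine UF.all ?_
    exact (UF.lt (UT.var 0) (hn' 1)).imp (hq.app 1 (UT.var 0)).not
  · refine UF.all ?_
    refine UF.iff (hq.app 1 (((hn' 1).add UT.one).add (UT.var 0))) ?_
    refine UF.ex (UF.ex ?_)
    refine UF.and (UF.eq (UT.var 2) (UT.pair ((UT.var 1).add UT.one) (UT.var 0))) (UF.and ?_ ?_)
    · exact UF.lt ((UT.var 1).add UT.one) (hn' 3)
    · refine UF.jop (p := fun N X v => p N X (fun i => v (i + 3)))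
        (q := fun N X v x => q N X (fun i => v (i + 3)) (N.add (N.add (n N (fun i => v (i + 3)))
          N.one) (pair N (v 1) x))) (UT.var 0) ?_ ?_
      · exact hp.app 4 (UT.var 0)
      · exact hq.app 4 (((hn' 4).add UT.one).add (UT.pair (UT.var 2) (UT.var 0)))

/-! ### the standard structure -/

/-- The standard structure. -/
abbrev St : L2Structure where
  M := ℕ
  zero := 0
  one := 1
  add := (· + ·)
  mul := (· * ·)
  lt := (· < ·)
  Sets := Set.univ

/-- The pairing function on the natural numbers. -/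
def prn (i j : ℕ) : ℕ := (i + j) * (i + j) + i

theorem prn_inj {i j i' j' : ℕ} (h : prn i j = prn i' j') : i = i' ∧ j = j' := by
  have key : ∀ i j i' j' : ℕ, (i + j) * (i + j) + i = (i' + j') * (i' + j') + i' →
      ¬ i + j < i' + j' := by
    intro i j i' j' h hlt
    have h1 : (i + j + 1) * (i + j + 1) ≤ (i' + j') * (i' + j') := Nat.mul_le_mul hlt hlt
    have h2 : (i + j + 1) * (i + j + 1) = (i + j) * (i + j) + 2 * (i + j) + 1 := by ring
    omega
  unfold prn at h
  have h1 : i + j = i' + j' :=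
    le_antisymm (not_lt.1 (key _ _ _ _ h.symm)) (not_lt.1 (key _ _ _ _ h))
  rw [h1] at h
  omega

theorem pair_St (i j : ℕ) : pair St i j = prn i j := rfl

open Classical in
/-- Decoding of pairs. -/
noncomputable def u1 (z : ℕ) : ℕ := if h : ∃ x y, z = prn x y then h.choose else 0

open Classical in
/-- Decoding of pairs. -/
noncomputable def u2 (z : ℕ) : ℕ := if h : ∃ x y, z = prn x y then h.choose_spec.choose else 0

theorem u_prn (x y : ℕ) : u1 (prn x y) = x ∧ u2 (prn x y) = y := by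
  have h : ∃ x' y', prn x y = prn x' y' := ⟨x, y, rfl⟩
  have h1 := h.choose_spec.choose_spec
  have h2 := prn_inj h1
  unfold u1 u2
  rw [dif_pos h, dif_pos h]
  exact ⟨h2.1.symm, h2.2.symm⟩

@[simp] theorem u1_prn (x y : ℕ) : u1 (prn x y) = x := (u_prn x y).1
@[simp] theorem u2_prn (x y : ℕ) : u2 (prn x y) = y := (u_prn x y).2

/-- The context whose first `r` members are decoded from `c`. -/
noncomputable def pre : ℕ → ℕ → (ℕ → ℕ) → ℕ → ℕ
  | 0, _, v => v
  | r + 1, c, v => cons (u1 c) (pre r (u2 c) v)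

theorem pre_succ (r y c : ℕ) (v : ℕ → ℕ) : pre (r + 1) (prn y c) v = cons y (pre r c v) := by
  show cons (u1 (prn y c)) (pre r (u2 (prn y c)) v) = _
  rw [u1_prn, u2_prn]

theorem pre_apply (r c : ℕ) (v : ℕ → ℕ) (i : ℕ) :
    pre r c v i = if i < r then pre r c (fun _ => 0) i else v (i - r) := by
  induction r generalizing c i with
  | zero => rfl
  | succ r ih =>
    cases i with
    | zero => rfl
    | succ i =>
      show pre r (u2 c) v i = _
      rw [ih]
      by_cases h : i < r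
      · rw [if_pos h, if_pos (by omega)]; rfl
      · rw [if_neg h, if_neg (by omega), Nat.add_sub_add_right]

/-- The value of a standard term. -/
def tv (t : Term ℕ) (v : ℕ → ℕ) : ℕ := t.val St (fun a => a) v

/-- Instantiation of the constants and of the variables after the first `r`. -/
def inst {C : Type} (r : ℕ) (ρ : C → ℕ) (v : ℕ → ℕ) : Term C → Term ℕ
  | .var i => if i < r then .var i else .const (v (i - r))
  | .const a => .const (ρ a)
  | .zero => .zero
  | .one => .one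
  | .add s t => .add (inst r ρ v s) (inst r ρ v t)
  | .mul s t => .mul (inst r ρ v s) (inst r ρ v t)

theorem tv_inst {C : Type} (r : ℕ) (ρ : C → ℕ) (v : ℕ → ℕ) (c : ℕ) (t : Term C) :
    tv (inst r ρ v t) (pre r c fun _ => 0) = t.val St ρ (pre r c v) := by
  induction t with
  | var i =>
    show _ = pre r c v i
    rw [pre_apply]
    unfold inst
    split_ifs with h
    · rfl
    · rfl
  | const a => rfl
  | zero => rfl
  | one => rfl
  | add s t hs ht =>
    show tv (inst r ρ v s) _ + tv (inst r ρ v t) _ = _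
    rw [hs, ht]; rfl
  | mul s t hs ht =>
    show tv (inst r ρ v s) _ * tv (inst r ρ v t) _ = _
    rw [hs, ht]; rfl

/-- Indices of the basic functions. -/
inductive Ix : Type
  | idx : Ix
  | ins : Ix
  | eq (r : ℕ) (s t : Term ℕ) : Ix
  | lt (r : ℕ) (s t : Term ℕ) : Ix
  | tm (r : ℕ) (t : Term ℕ) : Ix

deriving instance Countable for Ix

instance : Nonempty Ix := ⟨.idx⟩

/-- The basic functions. -/
noncomputable def fx : Ix → ℕ → ℕ
  | .idx, x => x
  | .ins, x => prn x 0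
  | .eq r s t, c => if tv s (pre r c fun _ => 0) = tv t (pre r c fun _ => 0) then 1 else 0
  | .lt r s t, c => if tv s (pre r c fun _ => 0) < tv t (pre r c fun _ => 0) then 1 else 0
  | .tm r t, c => tv t (pre r c fun _ => 0)

/-- The enumeration of the basic functions. -/
noncomputable def fe (e : ℕ) : ℕ → ℕ := fx ((exists_surjective_nat Ix).choose e)

theorem exists_fe (j : Ix) : ∃ e, fe e = fx j := by
  obtain ⟨e, he⟩ := (exists_surjective_nat Ix).choose_spec j
  exact ⟨e, by unfold fe; rw [he]⟩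

/-- The parameter. -/
def Pm : Set ℕ := {z | z = 1 ∨ ∃ e x, z = prn (e + 1) (prn x (fe e x))}

theorem zero_notMem_Pm : 0 ∉ Pm := by
  rintro (h | ⟨e, x, h⟩)
  · exact absurd h (by norm_num)
  · unfold prn at h; omega

theorem one_mem_Pm : 1 ∈ Pm := Or.inl rfl

theorem prn_mem_Pm (e x y : ℕ) : prn (e + 1) (prn x y) ∈ Pm ↔ y = fe e x := by
  constructor
  · rintro (h | ⟨e', x', h⟩)
    · exfalso
      have h1 : 1 ≤ (e + 1 + prn x y) * (e + 1 + prn x y) :=
        Nat.one_le_iff_ne_zero.2 (by positivity)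
      unfold prn at h h1
      omega
    · obtain ⟨h1, h2⟩ := prn_inj h
      obtain ⟨h3, h4⟩ := prn_inj h2
      have : e = e' := by omega
      subst this; subst h3; exact h4
  · rintro rfl
    exact Or.inr ⟨e, x, rfl⟩

/-- The levels. -/
def Jl : ℕ → Set ℕ
  | 0 => ∅
  | k + 1 => {w | Jop St (· ∈ Pm) (· ∈ Jl k) w}

/-- The sections of a level. -/
def Sc (m : ℕ) : Set (Set ℕ) := {S | ∃ a, S = {x | prn a x ∈ Jl m}}

theorem mem_Jl_succ {m a x : ℕ} : prn a x ∈ Jl (m + 1) ↔
    ((∃ b c, a = prn 0 (prn b c) ∧ ¬ (prn b x ∈ Jl m ∧ prn c x ∈ Jl m)) ∨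
    (∃ b, a = prn 1 b ∧ ∀ y, prn b (prn y x) ∈ Jl m) ∨
    (∃ e b, a = prn 2 (prn e b) ∧ ∃ y, prn e (prn x y) ∈ Pm ∧ prn b y ∈ Jl m) ∨
    (a = prn 3 0 ∧ x ∈ Pm)) := by
  constructor
  · rintro ⟨a', x', h, h'⟩
    obtain ⟨rfl, rfl⟩ := prn_inj h
    exact h'
  · intro h
    exact ⟨a, x, rfl, h⟩

theorem Sc.nand {m : ℕ} {A B : Set ℕ} (hA : A ∈ Sc m) (hB : B ∈ Sc m) :
    {x | ¬ (x ∈ A ∧ x ∈ B)} ∈ Sc (m + 1) := by
  obtain ⟨b, rfl⟩ := hA
  obtain ⟨c, rfl⟩ := hB
  refine ⟨prn 0 (prn b c), ?_⟩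
  ext x
  simp only [Set.mem_ofPred_eq, mem_Jl_succ]
  constructor
  · intro h; exact Or.inl ⟨b, c, rfl, h⟩
  · rintro (⟨b', c', h1, h2⟩ | ⟨b', h1, -⟩ | ⟨e, b', h1, -⟩ | ⟨h1, -⟩)
    · obtain ⟨-, h3⟩ := prn_inj h1
      obtain ⟨rfl, rfl⟩ := prn_inj h3
      exact h2
    · exact absurd (prn_inj h1).1 (by norm_num)
    · exact absurd (prn_inj h1).1 (by norm_num)
    · exact absurd (prn_inj h1).1 (by norm_num)

theorem Sc.all {m : ℕ} {A : Set ℕ} (hA : A ∈ Sc m) : {x | ∀ y, prn y x ∈ A} ∈ Sc (m + 1) := by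
  obtain ⟨b, rfl⟩ := hA
  refine ⟨prn 1 b, ?_⟩
  ext x
  simp only [Set.mem_ofPred_eq, mem_Jl_succ]
  constructor
  · intro h; exact Or.inr (Or.inl ⟨b, rfl, h⟩)
  · rintro (⟨b', c', h1, -⟩ | ⟨b', h1, h2⟩ | ⟨e, b', h1, -⟩ | ⟨h1, -⟩)
    · exact absurd (prn_inj h1).1 (by norm_num)
    · obtain ⟨-, rfl⟩ := prn_inj h1
      exact h2
    · exact absurd (prn_inj h1).1 (by norm_num)
    · exact absurd (prn_inj h1).1 (by norm_num)

theorem Sc.preimage {m : ℕ} {A : Set ℕ} (hA : A ∈ Sc m) (j : Ix) :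
    {x | fx j x ∈ A} ∈ Sc (m + 1) := by
  obtain ⟨b, rfl⟩ := hA
  obtain ⟨e, he⟩ := exists_fe j
  refine ⟨prn 2 (prn (e + 1) b), ?_⟩
  ext x
  simp only [Set.mem_ofPred_eq, mem_Jl_succ]
  constructor
  · intro h
    refine Or.inr (Or.inr (Or.inl ⟨e + 1, b, rfl, fx j x, ?_, h⟩))
    rw [prn_mem_Pm, he]
  · rintro (⟨b', c', h1, -⟩ | ⟨b', h1, h2⟩ | ⟨e', b', h1, y, h2, h3⟩ | ⟨h1, -⟩)
    · exact absurd (prn_inj h1).1 (by norm_num)
    · exact absurd (prn_inj h1).1 (by norm_num)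
    · obtain ⟨-, h4⟩ := prn_inj h1
      obtain ⟨rfl, rfl⟩ := prn_inj h4
      rw [prn_mem_Pm, he] at h2
      rw [← h2]; exact h3
    · exact absurd (prn_inj h1).1 (by norm_num)

theorem Pm_mem (m : ℕ) : Pm ∈ Sc (m + 1) := by
  refine ⟨prn 3 0, ?_⟩
  ext x
  simp only [Set.mem_ofPred_eq, mem_Jl_succ]
  constructor
  · intro h; exact Or.inr (Or.inr (Or.inr ⟨trivial, h⟩))
  · rintro (⟨b', c', h1, -⟩ | ⟨b', h1, h2⟩ | ⟨e', b', h1, y, h2, h3⟩ | ⟨-, h⟩)
    · exact absurd (prn_inj h1).1 (by norm_num)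
    · exact absurd (prn_inj h1).1 (by norm_num)
    · exact absurd (prn_inj h1).1 (by norm_num)
    · exact h

theorem Sc.succ {m : ℕ} {A : Set ℕ} (hA : A ∈ Sc m) : A ∈ Sc (m + 1) := Sc.preimage hA .idx

theorem Sc.mono {m n : ℕ} (h : m ≤ n) {A : Set ℕ} (hA : A ∈ Sc m) : A ∈ Sc n := by
  induction n, h using Nat.le_induction with
  | base => exact hA
  | succ n _ ih => exact Sc.succ ih

theorem Sc.compl {m : ℕ} {A : Set ℕ} (hA : A ∈ Sc m) : {x | ¬ x ∈ A} ∈ Sc (m + 1) := by
  have h := Sc.nand hA hA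
  have e : {x | ¬ (x ∈ A ∧ x ∈ A)} = {x | ¬ x ∈ A} := by
    ext x; simp
  rwa [e] at h

theorem eq_mem (r : ℕ) (s t : Term ℕ) (m : ℕ) :
    {c | tv s (pre r c fun _ => 0) = tv t (pre r c fun _ => 0)} ∈ Sc (m + 2) := by
  have h := Sc.preimage (Pm_mem m) (.eq r s t)
  have e : {x | fx (.eq r s t) x ∈ Pm} =
      {c | tv s (pre r c fun _ => 0) = tv t (pre r c fun _ => 0)} := by
    ext x
    simp only [Set.mem_ofPred_eq, fx]
    split_ifs with h1
    · exact iff_of_true one_mem_Pm h1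
    · exact iff_of_false zero_notMem_Pm h1
  rwa [e] at h

theorem lt_mem (r : ℕ) (s t : Term ℕ) (m : ℕ) :
    {c | tv s (pre r c fun _ => 0) < tv t (pre r c fun _ => 0)} ∈ Sc (m + 2) := by
  have h := Sc.preimage (Pm_mem m) (.lt r s t)
  have e : {x | fx (.lt r s t) x ∈ Pm} =
      {c | tv s (pre r c fun _ => 0) < tv t (pre r c fun _ => 0)} := by
    ext x
    simp only [Set.mem_ofPred_eq, fx]
    split_ifs with h1
    · exact iff_of_true one_mem_Pm h1
    · exact iff_of_false zero_notMem_Pm h1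
  rwa [e] at h

/-- The closure theorem: arithmetic definitions stay within a fixed level. -/
theorem closure {C S : Type} (k : S → ℕ) (φ : Formula C S) : ∀ r : ℕ, ∃ m, ∀ (ρ : C → ℕ)
    (X : S → Set ℕ) (v : ℕ → ℕ), (∀ s, X s ∈ Sc (k s)) →
    {c | φ.Holds St ρ X (pre r c v)} ∈ Sc m := by
  induction φ with
  | eq s t =>
    intro r
    refine ⟨2, fun ρ X v _ => ?_⟩
    have h := eq_mem r (inst r ρ v s) (inst r ρ v t) 0
    have e : {c | tv (inst r ρ v s) (pre r c fun _ => 0) =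
        tv (inst r ρ v t) (pre r c fun _ => 0)} =
        {c | (Formula.eq s t : Formula C S).Holds St ρ X (pre r c v)} := by
      ext c
      simp only [Set.mem_ofPred_eq, tv_inst]
      exact Iff.rfl
    rwa [e] at h
  | lt s t =>
    intro r
    refine ⟨2, fun ρ X v _ => ?_⟩
    have h := lt_mem r (inst r ρ v s) (inst r ρ v t) 0
    have e : {c | tv (inst r ρ v s) (pre r c fun _ => 0) <
        tv (inst r ρ v t) (pre r c fun _ => 0)} =
        {c | (Formula.lt s t : Formula C S).Holds St ρ X (pre r c v)} := by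
      ext c
      simp only [Set.mem_ofPred_eq, tv_inst]
      exact Iff.rfl
    rwa [e] at h
  | mem t s =>
    intro r
    refine ⟨k s + 1, fun ρ X v hX => ?_⟩
    have h := Sc.preimage (hX s) (.tm r (inst r ρ v t))
    have e : {x | fx (.tm r (inst r ρ v t)) x ∈ X s} =
        {c | (Formula.mem t s : Formula C S).Holds St ρ X (pre r c v)} := by
      ext c
      simp only [Set.mem_ofPred_eq, fx, tv_inst]
      exact Iff.rfl
    rwa [e] at h
  | neg φ ih =>
    intro r
    obtain ⟨m, hm⟩ := ih r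
    exact ⟨m + 1, fun ρ X v hX => Sc.compl (hm ρ X v hX)⟩
  | and φ ψ ih1 ih2 =>
    intro r
    obtain ⟨m1, hm1⟩ := ih1 r
    obtain ⟨m2, hm2⟩ := ih2 r
    refine ⟨max m1 m2 + 1 + 1, fun ρ X v hX => ?_⟩
    have h := Sc.compl (Sc.nand (Sc.mono (le_max_left m1 m2) (hm1 ρ X v hX))
      (Sc.mono (le_max_right m1 m2) (hm2 ρ X v hX)))
    have e : {x | ¬ x ∈ {x | ¬ (x ∈ {c | φ.Holds St ρ X (pre r c v)} ∧
        x ∈ {c | ψ.Holds St ρ X (pre r c v)})}} =
        {c | (Formula.and φ ψ : Formula C S).Holds St ρ X (pre r c v)} := by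
      ext c
      simp only [Set.mem_ofPred_eq, not_not]
      exact Iff.rfl
    rwa [e] at h
  | ball t φ ih =>
    intro r
    obtain ⟨m, hm⟩ := ih (r + 1)
    refine ⟨max 2 (m + 1) + 1 + 1, fun ρ X v hX => ?_⟩
    have h1 := lt_mem (r + 1) (.var 0) (inst (r + 1) ρ v (t.subst fun i => .var (i + 1))) 0
    have h2 := Sc.compl (hm ρ X v hX)
    have h := Sc.all (Sc.nand (Sc.mono (le_max_left 2 (m + 1)) h1)
      (Sc.mono (le_max_right 2 (m + 1)) h2))
    have e : {x | ∀ y, prn y x ∈ {x | ¬ (x ∈ {c | tv (.var 0) (pre (r + 1) c fun _ => 0) <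
        tv (inst (r + 1) ρ v (t.subst fun i => .var (i + 1))) (pre (r + 1) c fun _ => 0)} ∧
        x ∈ {x | ¬ x ∈ {c | φ.Holds St ρ X (pre (r + 1) c v)}})}} =
        {c | (Formula.ball t φ : Formula C S).Holds St ρ X (pre r c v)} := by
      ext c
      have hs : ∀ a : ℕ, (t.subst fun i => .var (i + 1)).val St ρ (cons a (pre r c v)) =
          t.val St ρ (pre r c v) := by
        intro a
        exact Term.val_subst (N := St) ρ (fun i => .var (i + 1)) t (cons a (pre r c v))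
      simp only [Set.mem_ofPred_eq, tv_inst, pre_succ]
      constructor
      · intro h3 a ha
        by_contra h4
        exact h3 a ⟨lt_of_lt_of_eq ha (hs a).symm, h4⟩
      · rintro h3 a ⟨ha, h4⟩
        exact h4 (h3 a (lt_of_lt_of_eq ha (hs a)))
    rwa [e] at h
  | all φ ih =>
    intro r
    obtain ⟨m, hm⟩ := ih (r + 1)
    refine ⟨m + 1, fun ρ X v hX => ?_⟩
    have h := Sc.all (hm ρ X v hX)
    have e : {x | ∀ y, prn y x ∈ {c | φ.Holds St ρ X (pre (r + 1) c v)}} =
        {c | (Formula.all φ : Formula C S).Holds St ρ X (pre r c v)} := by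
      ext c
      simp only [Set.mem_ofPred_eq, pre_succ]
      exact Iff.rfl
    rwa [e] at h

/-- The closure theorem for one distinguished variable. -/
theorem closure_one {C S : Type} (k : S → ℕ) (φ : Formula C S) : ∃ m, ∀ (ρ : C → ℕ)
    (X : S → Set ℕ) (v : ℕ → ℕ), (∀ s, X s ∈ Sc (k s)) →
    {n | φ.Holds St ρ X (cons n v)} ∈ Sc m := by
  obtain ⟨m, hm⟩ := closure k φ 1
  refine ⟨m + 1, fun ρ X v hX => ?_⟩
  have h := Sc.preimage (hm ρ X v hX) .ins
  have e : {x | fx .ins x ∈ {c | φ.Holds St ρ X (pre 1 c v)}} =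
      {n | φ.Holds St ρ X (cons n v)} := by
    ext c
    simp only [Set.mem_ofPred_eq, fx, pre_succ]
    exact Iff.rfl
  rwa [e] at h

theorem empty_mem (m : ℕ) : (∅ : Set ℕ) ∈ Sc m := by
  refine Sc.mono (Nat.zero_le m) ⟨0, ?_⟩
  ext x
  simp [Jl]

/-- Every level is a section of some level. -/
theorem Jl_mem (n : ℕ) : ∃ m, Jl n ∈ Sc m := by
  induction n with
  | zero => exact ⟨0, empty_mem 0⟩
  | succ n ih =>
    obtain ⟨m, hm⟩ := ih
    have hU : UF fun N X v => Jop N (· ∈ X 0) (· ∈ X 1) (v 0) :=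
      UF.jop (p := fun N X v x => x ∈ X 0) (q := fun N X v x => x ∈ X 1) (UT.var 0)
        (UF.mem (UT.var 0) 0) (UF.mem (UT.var 0) 1)
    obtain ⟨φ, hφ⟩ := hU
    obtain ⟨m', hm'⟩ := closure_one (fun s => if s = 0 then 1 else m) φ
    refine ⟨m', ?_⟩
    have h := hm' (fun e => e.elim) (fun s => if s = 0 then Pm else Jl n) (fun _ => 0) (by
      intro s
      by_cases hs : s = 0
      · simp only [hs, if_true]; exact Pm_mem 0
      · simp only [hs, if_false]; exact hm)
    have e : {n_1 | φ.Holds St (fun e => e.elim) (fun s => if s = 0 then Pm else Jl n)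
        (cons n_1 fun _ => 0)} = Jl (n + 1) := by
      ext w
      simp only [Set.mem_ofPred_eq]
      rw [hφ]
      exact Iff.rfl
    exact Eq.subst (motive := fun S : Set ℕ => S ∈ Sc m') e h

end Pool.Agent.Q205.FC
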