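import Pool.Agent.Q205.FC.Std

/-!
The ultrapower of the natural numbers with the sections of the standard levels.
-/

namespace Pool.Agent.Q205.FC

open Filter Pool.Agent.Q205.RS

/-- The ultrapower of the natural numbers. -/
abbrev K : Type := (hyperfilter ℕ : Filter ℕ).Germ ℕ

/-- The germ of a function. -/
noncomputable abbrev gm (f : ℕ → ℕ) : K := (f : (hyperfilter ℕ : Filter ℕ).Germ ℕ)

theorem gm_eq {f g : ℕ → ℕ} : gm f = gm g ↔ ∀ᶠ i in (hyperfilter ℕ : Filter ℕ), f i = g i :=
  Filter.Germ.coe_eq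

theorem gm_lt {f g : ℕ → ℕ} : gm f < gm g ↔ ∀ᶠ i in (hyperfilter ℕ : Filter ℕ), f i < g i :=
  Filter.Germ.coe_lt

theorem ev_gt (n : ℕ) : ∀ᶠ i in (hyperfilter ℕ : Filter ℕ), n < i := by
  refine hyperfilter_le_cofinite ?_
  rw [Nat.cofinite_eq_atTop]
  exact eventually_gt_atTop n

/-- A representative. -/
noncomputable def rep (x : K) : ℕ → ℕ := Quotient.out x

theorem gm_rep (x : K) : gm (rep x) = x := Quotient.out_eq x

/-- The internal set given by the sequence `A`. -/
def trace (A : ℕ → Set ℕ) : Set K := {x | ∀ᶠ i in (hyperfilter ℕ : Filter ℕ), rep x i ∈ A i}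

theorem mem_trace {A : ℕ → Set ℕ} {f : ℕ → ℕ} :
    gm f ∈ trace A ↔ ∀ᶠ i in (hyperfilter ℕ : Filter ℕ), f i ∈ A i := by
  have h := gm_eq.1 (gm_rep (gm f))
  constructor
  · intro h1
    have h1' : ∀ᶠ i in (hyperfilter ℕ : Filter ℕ), rep (gm f) i ∈ A i := h1
    filter_upwards [h, h1'] with i h2 h3
    rw [← h2]; exact h3
  · intro h1
    show ∀ᶠ i in (hyperfilter ℕ : Filter ℕ), rep (gm f) i ∈ A i
    filter_upwards [h, h1] with i h2 h3
    rw [h2]; exact h3

/-- The model. -/
noncomputable abbrev Nm : L2Structure where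
  M := K
  zero := 0
  one := 1
  add x y := x + y
  mul x y := x * y
  lt x y := x < y
  Sets := {X | ∃ (k : ℕ) (a : ℕ → ℕ), X = trace fun i => {x | prn (a i) x ∈ Jl k}}

theorem mem_Sets {X : Set K} : X ∈ Nm.Sets ↔
    ∃ (k : ℕ) (A : ℕ → Set ℕ), (∀ i, A i ∈ Sc k) ∧ X = trace A := by
  constructor
  · rintro ⟨k, a, rfl⟩
    exact ⟨k, _, fun i => ⟨a i, rfl⟩, rfl⟩
  · rintro ⟨k, A, hA, rfl⟩
    choose a ha using hA
    refine ⟨k, a, ?_⟩
    congr 1
    funext i
    exact ha i

theorem gm_val {C : Type} (c : C → ℕ → ℕ) (t : Term C) (w : ℕ → ℕ → ℕ) :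
    t.val Nm (fun a => gm (c a)) (fun k => gm (w k)) =
      gm (fun i => t.val St (fun a => c a i) (fun k => w k i)) := by
  induction t with
  | var k => rfl
  | const a => rfl
  | zero => rfl
  | one => rfl
  | add s t hs ht =>
    show s.val Nm _ _ + t.val Nm _ _ = _
    rw [hs, ht]; rfl
  | mul s t hs ht =>
    show s.val Nm _ _ * t.val Nm _ _ = _
    rw [hs, ht]; rfl

/-- The theorem of Łoś. -/
theorem los {C S : Type} (φ : Formula C S) (c : C → ℕ → ℕ) (A : S → ℕ → Set ℕ) :
    ∀ w : ℕ → ℕ → ℕ, φ.Holds Nm (fun a => gm (c a)) (fun s => trace (A s)) (fun k => gm (w k)) ↔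
      ∀ᶠ i in (hyperfilter ℕ : Filter ℕ),
        φ.Holds St (fun a => c a i) (fun s => A s i) (fun k => w k i) := by
  induction φ with
  | eq s t =>
    intro w
    show s.val Nm _ _ = t.val Nm _ _ ↔ _
    rw [gm_val, gm_val, gm_eq]
    exact Iff.rfl
  | lt s t =>
    intro w
    show s.val Nm _ _ < t.val Nm _ _ ↔ _
    rw [gm_val, gm_val, gm_lt]
    exact Iff.rfl
  | mem t X =>
    intro w
    show t.val Nm _ _ ∈ trace (A X) ↔ _
    rw [gm_val, mem_trace]
    exact Iff.rfl
  | neg φ ih =>
    intro w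
    show ¬ _ ↔ ∀ᶠ i in (hyperfilter ℕ : Filter ℕ), ¬ _
    rw [ih w, Ultrafilter.eventually_not]
  | and φ ψ ih1 ih2 =>
    intro w
    show _ ∧ _ ↔ ∀ᶠ i in (hyperfilter ℕ : Filter ℕ), _ ∧ _
    rw [ih1 w, ih2 w, eventually_and]
  | ball t φ ih =>
    intro w
    have hcons : ∀ f : ℕ → ℕ, φ.Holds Nm (fun a => gm (c a)) (fun s => trace (A s))
        (cons (gm f) fun k => gm (w k)) ↔ ∀ᶠ i in (hyperfilter ℕ : Filter ℕ),
          φ.Holds St (fun a => c a i) (fun s => A s i) (cons (f i) fun k => w k i) := by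
      intro f
      have h1 := ih (cons f w)
      have h2 : (fun k => gm (cons f w k)) = cons (gm f) fun k => gm (w k) := by
        funext k; cases k <;> rfl
      have h3 : ∀ i, (fun k => cons f w k i) = cons (f i) fun k => w k i := by
        intro i; funext k; cases k <;> rfl
      rw [h2] at h1
      simp only [h3] at h1
      exact h1
    constructor
    · intro h
      by_contra hcon
      rw [← Ultrafilter.eventually_not] at hcon
      have h1 : ∀ᶠ i in (hyperfilter ℕ : Filter ℕ), ∃ a : ℕ,
          a < t.val St (fun a => c a i) (fun k => w k i) ∧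
          ¬ φ.Holds St (fun a => c a i) (fun s => A s i) (cons a fun k => w k i) := by
        filter_upwards [hcon] with i hi
        by_contra h2
        push Not at h2
        exact hi h2
      let f : ℕ → ℕ := fun i => Classical.epsilon fun a : ℕ =>
          a < t.val St (fun a => c a i) (fun k => w k i) ∧
          ¬ φ.Holds St (fun a => c a i) (fun s => A s i) (cons a fun k => w k i)
      have h2 : ∀ᶠ i in (hyperfilter ℕ : Filter ℕ),
          f i < t.val St (fun a => c a i) (fun k => w k i) ∧
          ¬ φ.Holds St (fun a => c a i) (fun s => A s i) (cons (f i) fun k => w k i) := by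
        filter_upwards [h1] with i hi
        exact Classical.epsilon_spec hi
      have h3 : gm f < t.val Nm (fun a => gm (c a)) (fun k => gm (w k)) := by
        rw [gm_val, gm_lt]
        exact h2.mono fun i hi => hi.1
      have h5 := (hcons f).1 (h (gm f) h3)
      obtain ⟨i, hi1, hi2⟩ := (h2.and h5).exists
      exact hi1.2 hi2
    · intro h a ha
      have ha' : gm (rep a) < t.val Nm (fun a => gm (c a)) (fun k => gm (w k)) := by
        rw [gm_rep]; exact ha
      rw [gm_val, gm_lt] at ha'
      rw [← gm_rep a]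
      rw [hcons (rep a)]
      filter_upwards [h, ha'] with i h1 h2
      exact h1 _ h2
  | all φ ih =>
    intro w
    have hcons : ∀ f : ℕ → ℕ, φ.Holds Nm (fun a => gm (c a)) (fun s => trace (A s))
        (cons (gm f) fun k => gm (w k)) ↔ ∀ᶠ i in (hyperfilter ℕ : Filter ℕ),
          φ.Holds St (fun a => c a i) (fun s => A s i) (cons (f i) fun k => w k i) := by
      intro f
      have h1 := ih (cons f w)
      have h2 : (fun k => gm (cons f w k)) = cons (gm f) fun k => gm (w k) := by
        funext k; cases k <;> rfl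
      have h3 : ∀ i, (fun k => cons f w k i) = cons (f i) fun k => w k i := by
        intro i; funext k; cases k <;> rfl
      rw [h2] at h1
      simp only [h3] at h1
      exact h1
    constructor
    · intro h
      by_contra hcon
      rw [← Ultrafilter.eventually_not] at hcon
      have h1 : ∀ᶠ i in (hyperfilter ℕ : Filter ℕ), ∃ a : ℕ,
          ¬ φ.Holds St (fun a => c a i) (fun s => A s i) (cons a fun k => w k i) := by
        filter_upwards [hcon] with i hi
        by_contra h2
        push Not at h2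
        exact hi h2
      let f : ℕ → ℕ := fun i => Classical.epsilon fun a : ℕ =>
          ¬ φ.Holds St (fun a => c a i) (fun s => A s i) (cons a fun k => w k i)
      have h2 : ∀ᶠ i in (hyperfilter ℕ : Filter ℕ),
          ¬ φ.Holds St (fun a => c a i) (fun s => A s i) (cons (f i) fun k => w k i) := by
        filter_upwards [h1] with i hi
        exact Classical.epsilon_spec hi
      have h5 := (hcons f).1 (h (gm f))
      obtain ⟨i, hi1, hi2⟩ := (h2.and h5).exists
      exact hi1 hi2
    · intro h a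
      rw [← gm_rep a]
      rw [hcons (rep a)]
      filter_upwards [h] with i h1
      exact h1 _

/-- Arithmetical comprehension in the model. -/
theorem comp {C S : Type} (φ : Formula C S) (c : C → K) (X : S → Set K)
    (hX : ∀ s, X s ∈ Nm.Sets) (v : ℕ → K) : {n | φ.Holds Nm c X (cons n v)} ∈ Nm.Sets := by
  choose k A hA hXA using fun s => mem_Sets.1 (hX s)
  obtain ⟨m, hm⟩ := closure_one k φ
  rw [mem_Sets]
  refine ⟨m, fun i => {n | φ.Holds St (fun a => rep (c a) i) (fun s => A s i)
    (cons n fun j => rep (v j) i)}, fun i => hm _ _ _ fun s => hA s i, ?_⟩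
  ext n
  rw [← gm_rep n, mem_trace]
  have h := los φ (fun a => rep (c a)) A (cons (rep n) fun j => rep (v j))
  have h1 : (fun a => gm (rep (c a))) = c := by funext a; exact gm_rep _
  have h2 : (fun s => trace (A s)) = X := by funext s; exact (hXA s).symm
  have h3 : (fun k => gm (cons (rep n) (fun j => rep (v j)) k)) = cons (gm (rep n)) v := by
    funext j
    cases j with
    | zero => rfl
    | succ j => exact gm_rep _
  have h4 : ∀ i, (fun k => cons (rep n) (fun j => rep (v j)) k i) =
      cons (rep n i) fun j => rep (v j) i := by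
    intro i; funext j; cases j <;> rfl
  rw [h1, h2, h3] at h
  simp only [h4] at h
  exact h

theorem comp_UF {R : ∀ N : L2Structure, (ℕ → Set N.M) → (ℕ → N.M) → Prop} (hR : UF R)
    (X : ℕ → Set K) (hX : ∀ s, X s ∈ Nm.Sets) (v : ℕ → K) :
    {n | R Nm X (cons n v)} ∈ Nm.Sets := by
  obtain ⟨φ, hφ⟩ := hR
  have h := comp φ (fun e => e.elim) X hX v
  have e : {n | φ.Holds Nm (fun e => e.elim) X (cons n v)} = {n | R Nm X (cons n v)} := by
    ext n
    exact hφ Nm X (cons n v)
  rwa [e] at h

theorem los_UF {R : ∀ N : L2Structure, (ℕ → Set N.M) → (ℕ → N.M) → Prop} (hR : UF R)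
    (A : ℕ → ℕ → Set ℕ) (w : ℕ → ℕ → ℕ) :
    R Nm (fun s => trace (A s)) (fun k => gm (w k)) ↔
      ∀ᶠ i in (hyperfilter ℕ : Filter ℕ), R St (fun s => A s i) (fun k => w k i) := by
  obtain ⟨φ, hφ⟩ := hR
  have h := los φ (fun (e : Empty) => e.elim) A w
  have e1 : (fun a : Empty => gm (Empty.elim a : ℕ → ℕ)) = fun e => e.elim := by
    funext e; exact e.elim
  rw [e1, hφ] at h
  rw [h]
  refine eventually_congr (Eventually.of_forall fun i => ?_)
  have e2 : (fun a : Empty => (Empty.elim a : ℕ → ℕ) i) = fun e => e.elim := by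
    funext e; exact e.elim
  rw [e2]
  exact hφ St _ _

/-- The least number principle. -/
theorem exists_least {X : Set K} (hX : X ∈ Nm.Sets) {x : K} (hx : x ∈ X) :
    ∃ y ∈ X, ∀ z, z < y → z ∉ X := by
  obtain ⟨k, A, -, rfl⟩ := mem_Sets.1 hX
  rw [← gm_rep x, mem_trace] at hx
  refine ⟨gm fun i => sInf (A i), ?_, ?_⟩
  · rw [mem_trace]
    filter_upwards [hx] with i hi
    exact Nat.sInf_mem ⟨_, hi⟩
  · intro z hz hz'
    rw [← gm_rep z, gm_lt] at hz
    rw [← gm_rep z, mem_trace] at hz'
    obtain ⟨i, h1, h2⟩ := (hz.and hz').exists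
    exact absurd (Nat.sInf_le h2) (not_le.2 h1)

theorem eq_zero_or_succ (x : K) : x = 0 ∨ ∃ y, x = y + 1 := by
  by_cases h : x = 0
  · exact Or.inl h
  · right
    refine ⟨gm fun i => rep x i - 1, ?_⟩
    have h1 : ∀ᶠ i in (hyperfilter ℕ : Filter ℕ), ¬ rep x i = 0 := by
      rw [Ultrafilter.eventually_not]
      intro h2
      apply h
      rw [← gm_rep x]
      exact gm_eq.2 h2
    rw [← gm_rep x]
    refine gm_eq.2 ?_
    filter_upwards [h1, gm_eq.1 (gm_rep (gm (rep x)))] with i hi hi'
    show rep x i = rep (gm (rep x)) i - 1 + 1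
    omega

theorem lt_succ_self' (x : K) : x < x + 1 := by
  rw [← gm_rep x]
  show gm (rep x) < gm (fun i => rep x i + 1)
  rw [gm_lt]
  exact Eventually.of_forall fun i => Nat.lt_succ_self _

/-- Induction. -/
theorem ind {X : Set K} (hX : X ∈ Nm.Sets) (h0 : 0 ∈ X) (hs : ∀ n, n ∈ X → n + 1 ∈ X) (n : K) :
    n ∈ X := by
  by_contra hn
  have hUF : UF fun N X v => v 0 ∉ X 0 := (UF.mem (UT.var 0) 0).not
  have hC : {n | n ∉ X} ∈ Nm.Sets := comp_UF hUF (fun _ => X) (fun _ => hX) (fun _ => 0)
  obtain ⟨y, hy, hy'⟩ := exists_least hC (x := n) hn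
  rcases eq_zero_or_succ y with rfl | ⟨z, rfl⟩
  · exact hy h0
  · apply hy
    apply hs
    by_contra hz
    exact hy' z (lt_succ_self' z) hz

theorem sigma_comp {S : Type} (θ : Formula K S) (X : S → Set K) (hX : ∀ s, X s ∈ Nm.Sets)
    (v : ℕ → K) : {n | ∃ k, θ.Holds Nm (fun a => a) X (cons k (cons n v))} ∈ Nm.Sets := by
  have h := comp (Formula.neg (.all (.neg θ))) (fun a => a) X hX v
  have e : {n | (Formula.neg (.all (.neg θ))).Holds Nm (fun a => a) X (cons n v)} =
      {n | ∃ k, θ.Holds Nm (fun a => a) X (cons k (cons n v))} := by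
    ext n
    show ¬ (∀ k, ¬ _) ↔ _
    push Not
    exact Iff.rfl
  rwa [e] at h

theorem isRCA0 : IsRCA0 Nm where
  add_comm a b := add_comm (G := K) a b
  add_assoc a b c := add_assoc (G := K) a b c
  add_zero a := add_zero (M := K) a
  mul_comm a b := mul_comm (G := K) a b
  mul_assoc a b c := mul_assoc (G := K) a b c
  mul_one a := mul_one (M := K) a
  mul_zero a := mul_zero (M₀ := K) a
  mul_add a b c := mul_add (R := K) a b c
  lt_irrefl a := lt_irrefl (α := K) a
  lt_trans a b c h1 h2 := lt_trans (α := K) h1 h2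
  lt_total a b := lt_trichotomy (α := K) a b
  add_lt_add a b c h := by
    show a + c < b + c
    have h' : gm (rep a) < gm (rep b) := by rw [gm_rep, gm_rep]; exact h
    rw [gm_lt] at h'
    rw [← gm_rep a, ← gm_rep b, ← gm_rep c]
    show gm (rep a + rep c) < gm (rep b + rep c)
    rw [gm_lt]
    filter_upwards [h'] with i hi
    show rep a i + rep c i < rep b i + rep c i
    omega
  mul_lt_mul a b c hc h := by
    show a * c < b * c
    have h' : gm (rep a) < gm (rep b) := by rw [gm_rep, gm_rep]; exact h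
    have hc' : gm (fun _ => 0) < gm (rep c) := by rw [gm_rep]; exact hc
    rw [gm_lt] at h' hc'
    rw [← gm_rep a, ← gm_rep b, ← gm_rep c]
    show gm (rep a * rep c) < gm (rep b * rep c)
    rw [gm_lt]
    filter_upwards [h', hc'] with i hi hi'
    exact Nat.mul_lt_mul_of_pos_right hi hi'
  exists_add a b h := by
    have h' : gm (rep a) < gm (rep b) := by rw [gm_rep, gm_rep]; exact h
    rw [gm_lt] at h'
    refine ⟨gm (fun i => rep b i - rep a i), ?_⟩
    show a + gm (fun i => rep b i - rep a i) = b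
    have e : gm (rep a) + gm (fun i => rep b i - rep a i) = gm (rep b) := by
      refine gm_eq.2 ?_
      filter_upwards [h'] with i hi
      show rep a i + (rep b i - rep a i) = rep b i
      omega
    rw [gm_rep, gm_rep] at e
    exact e
  zero_lt_one := by
    show gm (fun _ => 0) < gm (fun _ => 1)
    rw [gm_lt]
    exact Eventually.of_forall fun i => Nat.zero_lt_one
  discrete a := by
    rcases eq_zero_or_succ a with h | ⟨b, rfl⟩
    · exact Or.inl h
    · rcases eq_zero_or_succ b with rfl | ⟨c, rfl⟩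
      · right; left
        exact zero_add (M := K) 1
      · right; right
        show (1 : K) < c + 1 + 1
        rw [← gm_rep c]
        show gm (fun _ => 1) < gm (fun i => rep c i + 1 + 1)
        rw [gm_lt]
        exact Eventually.of_forall fun i => by omega
  sigma1_induction θ _ v h0 hs n := by
    have h := sigma_comp θ (fun X : Nm.Sets => (X : Set K)) (fun s => s.2) v
    exact ind h h0 hs n
  delta1_comprehension θ _ _ _ v _ :=
    sigma_comp θ (fun X : Nm.Sets => (X : Set K)) (fun s => s.2) v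

end Pool.Agent.Q205.FC
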